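import Mathlib

/-!
# Affine signed permutations: basic facts
-/

namespace Pool.Agent.Q285.AC

open Finset

/-- Affine signed permutations of period `2 * n + 2`. -/
structure Aff (n : ℤ) (w : Equiv.Perm ℤ) : Prop where
  neg : ∀ i, w (-i) = -w i
  per : ∀ i, w (i + (2 * n + 2)) = w i + (2 * n + 2)

/-- The set of the positive integers with negative image. -/
def negSet (w : Equiv.Perm ℤ) : Set ℤ := {i | 0 < i ∧ w i < 0}

/-- The total displacement. -/
noncomputable def tvd (n : ℤ) (u : ℤ → ℤ) : ℤ := ∑ i ∈ Icc 1 n, |u i - i|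

/-- `u` maps the window `[1, j]` into `±[j]`. -/
def Good (u : ℤ → ℤ) (j : ℤ) : Prop := ∀ i ∈ Icc 1 j, |u i| ≤ j

/-- The parity of the number of the negative values on `[1, j]`. -/
noncomputable def sg (u : ℤ → ℤ) (j : ℤ) : ZMod 2 := ∑ i ∈ Icc 1 j, if u i < 0 then 1 else 0

/-- Good with an odd number of negative values. -/
def OG (u : ℤ → ℤ) (j : ℤ) : Prop := Good u j ∧ sg u j = 1

open Classical in
/-- The set of the odd good places. -/
noncomputable def GS (n : ℤ) (u : ℤ → ℤ) : Finset ℤ := (Icc 1 (n - 1)).filter (OG u)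

lemma mem_GS {n : ℤ} {u : ℤ → ℤ} {j : ℤ} : j ∈ GS n u ↔ (1 ≤ j ∧ j ≤ n - 1) ∧ OG u j := by
  simp [GS]

/-- The parity invariant. -/
noncomputable def par (n : ℤ) (u : ℤ → ℤ) : ZMod 2 := ∑ i ∈ Icc 1 n, ((u i / (2 * n + 2) : ℤ) : ZMod 2)

section Numbers

variable {n : ℤ}

lemma mul_cases (hn : 1 ≤ n) (k : ℤ) : (k ≤ -1 ∧ k * (2 * n + 2) ≤ -(2 * n + 2)) ∨ k = 0 ∨
    (1 ≤ k ∧ 2 * n + 2 ≤ k * (2 * n + 2)) := by
  rcases lt_trichotomy k 0 with h | h | h
  · left
    constructor
    · omega
    · nlinarith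
  · right; left; exact h
  · right; right
    constructor
    · omega
    · nlinarith

lemma rep (hn : 1 ≤ n) (x : ℤ) : (∃ k, x = k * (n + 1)) ∨
    ∃ i k, 1 ≤ i ∧ i ≤ n ∧ (x = i + k * (2 * n + 2) ∨ x = -i + k * (2 * n + 2)) := by
  have h1 := Int.emod_add_mul_ediv x (2 * n + 2)
  have h2 := Int.emod_nonneg x (show (2 * n + 2 : ℤ) ≠ 0 by omega)
  have h3 := Int.emod_lt_of_pos x (show (0 : ℤ) < 2 * n + 2 by omega)
  set r := x % (2 * n + 2)
  set q := x / (2 * n + 2)
  by_cases h4 : r = 0
  · left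
    exact ⟨2 * q, by rw [h4] at h1; linear_combination -h1⟩
  by_cases h5 : r = n + 1
  · left
    exact ⟨2 * q + 1, by rw [h5] at h1; linear_combination -h1⟩
  by_cases h6 : r ≤ n
  · right
    exact ⟨r, q, by omega, h6, Or.inl (by linear_combination -h1)⟩
  · right
    exact ⟨2 * n + 2 - r, q + 1, by omega, by omega, Or.inr (by linear_combination -h1)⟩

lemma neg_div (hn : 1 ≤ n) (y : ℤ) (hy : ¬ (2 * n + 2) ∣ y) :
    (-y) / (2 * n + 2) = -(y / (2 * n + 2)) - 1 := by
  have h1 := Int.emod_add_mul_ediv y (2 * n + 2)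
  have h2 := Int.emod_nonneg y (show (2 * n + 2 : ℤ) ≠ 0 by omega)
  have h3 := Int.emod_lt_of_pos y (show (0 : ℤ) < 2 * n + 2 by omega)
  have h4 : y % (2 * n + 2) ≠ 0 := fun h => hy (Int.dvd_of_emod_eq_zero h)
  have h5 : (-y) / (2 * n + 2) = -(y / (2 * n + 2)) - 1 ∧
      (-y) % (2 * n + 2) = 2 * n + 2 - y % (2 * n + 2) := by
    apply (Int.ediv_emod_unique (show (0 : ℤ) < 2 * n + 2 by omega)).2
    refine ⟨?_, by omega, by omega⟩
    linear_combination -h1
  exact h5.1

lemma div_zero_of (x : ℤ) (h1 : 0 ≤ x) (h2 : x < 2 * n + 2) : x / (2 * n + 2) = 0 :=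
  Int.ediv_eq_zero_of_lt h1 h2

lemma div_neg_one_of (x : ℤ) (h1 : x < 0) (h2 : -(2 * n + 2) ≤ x) : x / (2 * n + 2) = -1 := by
  have h5 : x / (2 * n + 2) = -1 ∧ x % (2 * n + 2) = x + (2 * n + 2) := by
    apply (Int.ediv_emod_unique (show (0 : ℤ) < 2 * n + 2 by omega)).2
    exact ⟨by ring, by omega, by omega⟩
  exact h5.1

end Numbers

namespace Aff

variable {n : ℤ} {w : Equiv.Perm ℤ} (h : Aff n w)

include h

lemma per' (i k : ℤ) : w (i + k * (2 * n + 2)) = w i + k * (2 * n + 2) := by
  induction k using Int.induction_on with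
  | zero => simp
  | succ k ih =>
    have := h.per (i + k * (2 * n + 2))
    rw [ih] at this
    rw [show i + ((k : ℤ) + 1) * (2 * n + 2) = i + k * (2 * n + 2) + (2 * n + 2) by ring, this]
    ring
  | pred k ih =>
    have := h.per (i + (-(k : ℤ) - 1) * (2 * n + 2))
    rw [show i + (-(k : ℤ) - 1) * (2 * n + 2) + (2 * n + 2) = i + -(k : ℤ) * (2 * n + 2) by ring,
      ih] at this
    linear_combination -this

lemma mid (k : ℤ) : w (k * (n + 1)) = k * (n + 1) := by
  have h1 := h.per' (-(k * (n + 1))) k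
  rw [h.neg, show -(k * (n + 1)) + k * (2 * n + 2) = k * (n + 1) by ring] at h1
  linarith

lemma ne_mid (hn : 1 ≤ n) (i : ℤ) (h1 : 1 ≤ i) (h2 : i ≤ n) (k : ℤ) : w i ≠ k * (n + 1) := by
  rw [← h.mid k]
  intro h3
  have h4 := w.injective h3
  rcases lt_trichotomy k 0 with h5 | h5 | h5
  · nlinarith
  · subst h5
    omega
  · nlinarith

lemma ne_zero (hn : 1 ≤ n) (i : ℤ) (h1 : 1 ≤ i) (h2 : i ≤ n) : w i ≠ 0 := by
  have := h.ne_mid hn i h1 h2 0
  simpa using this

lemma not_dvd (hn : 1 ≤ n) (i : ℤ) (h1 : 1 ≤ i) (h2 : i ≤ n) : ¬ (2 * n + 2) ∣ w i := by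
  rintro ⟨k, hk⟩
  apply h.ne_mid hn i h1 h2 (2 * k)
  rw [hk]
  ring

lemma abs_inj (i j : ℤ) (h1 : 1 ≤ i) (h3 : 1 ≤ j) (h5 : |w i| = |w j|) : i = j := by
  rcases abs_eq_abs.1 h5 with h6 | h6
  · exact w.injective h6
  · rw [← h.neg] at h6
    have := w.injective h6
    omega

/-- The pigeonhole principle for the absolute values. -/
lemma pigeon (hn : 1 ≤ n) (S : Finset ℤ) (m : ℤ) (hS : S ⊆ Icc 1 n) (hSm : ∀ i ∈ S, |w i| ≤ m)
    (hcard : (S.card : ℤ) = m) (i : ℤ) (h1 : 1 ≤ i) (h2 : i ≤ n) (hi : i ∉ S) : m < |w i| := by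
  by_contra hcon
  push Not at hcon
  have hmaps : ∀ x ∈ insert i S, |w x| ∈ Icc 1 m := by
    intro x hx
    rw [mem_insert] at hx
    rw [mem_Icc]
    rcases hx with rfl | hx
    · exact ⟨Int.one_le_abs (h.ne_zero hn x h1 h2), hcon⟩
    · have h3 := mem_Icc.1 (hS hx)
      exact ⟨Int.one_le_abs (h.ne_zero hn x h3.1 h3.2), hSm x hx⟩
  have hinj : Set.InjOn (fun x => |w x|) (insert i S : Finset ℤ) := by
    intro x hx y hy hxy
    have h3 : ∀ z ∈ insert i S, 1 ≤ z := by
      intro z hz
      rcases mem_insert.1 hz with rfl | hz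
      · exact h1
      · exact (mem_Icc.1 (hS hz)).1
    exact h.abs_inj x y (h3 x hx) (h3 y hy) hxy
  have h4 := card_le_card_of_injOn _ hmaps hinj
  rw [card_insert_of_notMem hi, Int.card_Icc] at h4
  omega

/-- Parity of the number of positive integers with negative image. -/
lemma even_iff (hn : 1 ≤ n) : Even (negSet w).ncard ↔ par n w = 0 := by
  classical
  let F : ℤ → Finset ℤ := fun i => if 0 ≤ w i / (2 * n + 2) then
    (Icc 1 (w i / (2 * n + 2))).image (fun k => -i + k * (2 * n + 2)) else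
    (Icc 0 (-(w i / (2 * n + 2)) - 1)).image (fun k => i + k * (2 * n + 2))
  have hN : (0 : ℤ) < 2 * n + 2 := by omega
  have hN' : (2 * n + 2 : ℤ) ≠ 0 := by omega
  have hcardF : ∀ i, ((F i).card : ZMod 2) = ((w i / (2 * n + 2) : ℤ) : ZMod 2) := by
    intro i
    have key : (F i).card = (w i / (2 * n + 2)).natAbs := by
      simp only [F]
      split_ifs with h1
      · rw [card_image_of_injective, Int.card_Icc]
        · omega
        · intro x y hxy
          simp only at hxy
          have : x * (2 * n + 2) = y * (2 * n + 2) := by linarith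
          exact mul_right_cancel₀ hN' this
      · rw [card_image_of_injective, Int.card_Icc]
        · omega
        · intro x y hxy
          simp only at hxy
          have : x * (2 * n + 2) = y * (2 * n + 2) := by linarith
          exact mul_right_cancel₀ hN' this
    rw [key]
    generalize w i / (2 * n + 2) = z
    rcases Int.natAbs_eq z with h1 | h1
    · have h2 := congrArg (fun t : ℤ => (t : ZMod 2)) h1
      simp only [Int.cast_natCast] at h2
      exact h2.symm
    · have h2 := congrArg (fun t : ℤ => (t : ZMod 2)) h1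
      simp only [Int.cast_neg, Int.cast_natCast] at h2
      rw [h2, ZMod.neg_eq_self_mod_two]
  have hmemF : ∀ i x, x ∈ F i → ∃ k, x = i + k * (2 * n + 2) ∨ x = -i + k * (2 * n + 2) := by
    intro i x hx
    simp only [F] at hx
    split_ifs at hx
    · obtain ⟨k, -, rfl⟩ := mem_image.1 hx
      exact ⟨k, Or.inr rfl⟩
    · obtain ⟨k, -, rfl⟩ := mem_image.1 hx
      exact ⟨k, Or.inl rfl⟩
  have hset : negSet w = ((Icc 1 n).biUnion F : Finset ℤ) := by
    ext x
    simp only [negSet, Set.mem_ofPred_eq, coe_biUnion, Set.mem_iUnion, mem_coe, mem_Icc,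
      exists_prop]
    constructor
    · rintro ⟨h1, h2⟩
      rcases rep hn x with ⟨k, rfl⟩ | ⟨i, k, h3, h4, rfl | rfl⟩
      · rw [h.mid] at h2
        omega
      · refine ⟨i, ⟨h3, h4⟩, ?_⟩
        rw [h.per'] at h2
        have h5 : 0 ≤ k := by
          rcases mul_cases hn k with h5 | h5 | h5 <;> omega
        have h6 := Int.emod_add_mul_ediv (w i) (2 * n + 2)
        have h7 := Int.emod_nonneg (w i) hN'
        have h8 : k < -(w i / (2 * n + 2)) := by
          by_contra h8
          push Not at h8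
          nlinarith
        simp only [F]
        rw [if_neg (by omega)]
        exact mem_image.2 ⟨k, mem_Icc.2 ⟨h5, by omega⟩, rfl⟩
      · refine ⟨i, ⟨h3, h4⟩, ?_⟩
        rw [h.per', h.neg] at h2
        have h5 : 1 ≤ k := by
          rcases mul_cases hn k with h5 | h5 | h5
          · omega
          · subst h5
            omega
          · omega
        have h6 := Int.emod_add_mul_ediv (w i) (2 * n + 2)
        have h7 := Int.emod_lt_of_pos (w i) hN
        have h8 : k ≤ w i / (2 * n + 2) := by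
          by_contra h8
          push Not at h8
          nlinarith
        simp only [F]
        rw [if_pos (by omega)]
        exact mem_image.2 ⟨k, mem_Icc.2 ⟨h5, h8⟩, rfl⟩
    · rintro ⟨i, ⟨h3, h4⟩, hx⟩
      simp only [F] at hx
      have h6 := Int.emod_add_mul_ediv (w i) (2 * n + 2)
      have h7 := Int.emod_nonneg (w i) hN'
      have h9 := Int.emod_lt_of_pos (w i) hN
      have h10 : w i % (2 * n + 2) ≠ 0 :=
        fun h' => h.not_dvd hn i h3 h4 (Int.dvd_of_emod_eq_zero h')
      split_ifs at hx with h1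
      · obtain ⟨k, hk, rfl⟩ := mem_image.1 hx
        rw [mem_Icc] at hk
        rw [h.per', h.neg]
        constructor
        · nlinarith
        · have : k * (2 * n + 2) ≤ (w i / (2 * n + 2)) * (2 * n + 2) :=
            mul_le_mul_of_nonneg_right hk.2 (by omega)
          have h11 : 0 < w i % (2 * n + 2) := by omega
          linarith
      · obtain ⟨k, hk, rfl⟩ := mem_image.1 hx
        rw [mem_Icc] at hk
        rw [h.per']
        constructor
        · nlinarith
        · have : k * (2 * n + 2) ≤ (-(w i / (2 * n + 2)) - 1) * (2 * n + 2) :=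
            mul_le_mul_of_nonneg_right hk.2 (by omega)
          linarith
  have hdisj : ∀ i ∈ Icc 1 n, ∀ j ∈ Icc 1 n, i ≠ j → Disjoint (F i) (F j) := by
    intro i hi j hj hij
    rw [mem_Icc] at hi hj
    rw [disjoint_left]
    intro x hx hx'
    obtain ⟨k, hk⟩ := hmemF i x hx
    obtain ⟨l, hl⟩ := hmemF j x hx'
    have h1 := mul_cases hn (k - l)
    have h2 : (k - l) * (2 * n + 2) = k * (2 * n + 2) - l * (2 * n + 2) := by ring
    rw [h2] at h1
    rcases hk with hk | hk <;> rcases hl with hl | hl <;> rcases h1 with h1 | h1 | h1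
    all_goals first
      | omega
      | (have h3 : k = l := by omega
         subst h3
         omega)
  rw [hset, Set.ncard_coe_finset, card_biUnion (fun i hi j hj => hdisj i hi j hj),
    ← ZMod.natCast_eq_zero_iff_even, Nat.cast_sum]
  unfold par
  rw [sum_congr rfl fun i _ => hcardF i]

end Aff

end Pool.Agent.Q285.AC
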