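import Pool.Agent.Q285.AC.Trans

/-!
# The lower bound
-/

namespace Pool.Agent.Q285.AC

open Finset

lemma absd (e : ℤ) : (|e| = e ∧ 0 ≤ e) ∨ (|e| = -e ∧ e < 0) := by
  rcases le_or_gt 0 e with h | h
  · exact Or.inl ⟨abs_of_nonneg h, h⟩
  · exact Or.inr ⟨abs_of_neg h, h⟩

lemma Aff.mul {n : ℤ} {u t : Equiv.Perm ℤ} (hu : Aff n u) (ht : Aff n t) : Aff n (u * t) := by
  constructor
  · intro i
    rw [Equiv.Perm.mul_apply, Equiv.Perm.mul_apply, ht.neg, hu.neg]
  · intro i
    rw [Equiv.Perm.mul_apply, Equiv.Perm.mul_apply, ht.per, hu.per]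

lemma Aff.one (n : ℤ) : Aff n 1 := ⟨fun _ => rfl, fun _ => rfl⟩

/-- The values outside a good window are large. -/
lemma Aff.outside {n : ℤ} {w : Equiv.Perm ℤ} (h : Aff n w) (hn : 1 ≤ n) (j i : ℤ) (hj : 0 ≤ j)
    (hg : Good w j) (hi : j < i) (hi' : i ≤ n) : j < |w i| := by
  apply h.pigeon hn (Icc 1 j) j
  · exact Icc_subset_Icc le_rfl (by omega)
  · exact hg
  · rw [Int.card_Icc]
    omega
  · omega
  · exact hi'
  · simp
    omega

/-- The action of a transposition on the window. -/
lemma window {n : ℤ} (hn : 1 ≤ n) {t : Equiv.Perm ℤ} (ht : Aff n t) (hpar : par n t = 0)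
    {i j : ℤ} (hij : i ≠ j) (hT : IsTransposition n i j t) :
    ∃ a c k, 1 ≤ a ∧ a ≤ n ∧ 1 ≤ c ∧ c ≤ n ∧
      ((a = c ∧ k ≠ 0 ∧ t a = -a + k * (2 * n + 2) ∧ ∀ x ∈ Icc 1 n, x ≠ a → t x = x) ∨
      (a ≠ c ∧ t a = c + k * (2 * n + 2) ∧ t c = a - k * (2 * n + 2) ∧
        ∀ x ∈ Icc 1 n, x ≠ a → x ≠ c → t x = x) ∨
      (a ≠ c ∧ t a = -c + k * (2 * n + 2) ∧ t c = -a + k * (2 * n + 2) ∧
        ∀ x ∈ Icc 1 n, x ≠ a → x ≠ c → t x = x)) := by
  obtain ⟨h1, h2⟩ := hT
  -- the class of `i`
  obtain ⟨a, ha1, ha2, b, hb1, hb2, hfix⟩ : ∃ a, 1 ≤ a ∧ a ≤ n ∧ ∃ b, t a = b ∧ t b = a ∧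
      ∀ x, (∀ k, x ≠ a + k * (2 * n + 2) ∧ x ≠ b + k * (2 * n + 2) ∧ x ≠ -a + k * (2 * n + 2) ∧
        x ≠ -b + k * (2 * n + 2)) → t x = x := by
    have h3 := h1 0
    simp only [zero_mul, add_zero] at h3
    rcases rep hn i with ⟨k, hk⟩ | ⟨a, k, ha1, ha2, hk | hk⟩
    · exfalso
      apply hij
      rw [← h3.1, hk, ht.mid]
    · refine ⟨a, ha1, ha2, j - k * (2 * n + 2), ?_, ?_, ?_⟩
      · have h4 := (h1 (-k)).1
        rw [hk] at h4
        rw [show a + k * (2 * n + 2) + -k * (2 * n + 2) = a by ring] at h4
        rw [h4]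
        ring
      · have h4 := (h1 (-k)).2.1
        rw [hk] at h4
        rw [show j + -k * (2 * n + 2) = j - k * (2 * n + 2) by ring] at h4
        rw [h4]
        ring
      · intro x hx
        apply h2
        intro l
        rw [hk]
        refine ⟨fun h => (hx (k + l)).1 (by rw [h]; ring), fun h => (hx (k + l)).2.1
          (by rw [h]; ring), fun h => (hx (l - k)).2.2.1 (by rw [h]; ring),
          fun h => (hx (l - k)).2.2.2 (by rw [h]; ring)⟩
    · refine ⟨a, ha1, ha2, -j + k * (2 * n + 2), ?_, ?_, ?_⟩
      · have h4 := (h1 k).2.2.1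
        rw [hk] at h4
        rw [show -(-a + k * (2 * n + 2)) + k * (2 * n + 2) = a by ring] at h4
        exact h4
      · have h4 := (h1 k).2.2.2
        rw [h4, hk]
        ring
      · intro x hx
        apply h2
        intro l
        rw [hk]
        refine ⟨fun h => (hx (k + l)).2.2.1 (by rw [h]; ring), fun h => (hx (k + l)).2.2.2
          (by rw [h]; ring), fun h => (hx (l - k)).1 (by rw [h]; ring),
          fun h => (hx (l - k)).2.1 (by rw [h]; ring)⟩
  have hab : a ≠ b := by
    intro hab
    subst hab
    -- then `t` fixes everything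
    have h3 := h1 0
    simp only [zero_mul, add_zero] at h3
    apply hij
    rw [← h3.1]
    by_cases h4 : ∀ k, i ≠ a + k * (2 * n + 2) ∧ i ≠ a + k * (2 * n + 2) ∧
        i ≠ -a + k * (2 * n + 2) ∧ i ≠ -a + k * (2 * n + 2)
    · exact (hfix i h4).symm
    · push Not at h4
      obtain ⟨k, hk⟩ := h4
      by_cases h5 : i = a + k * (2 * n + 2)
      · rw [h5, ht.per', hb1]
      · have h6 : i = -a + k * (2 * n + 2) := by
          by_contra h7
          exact h7 (hk h5 h5 h7)
        rw [h6, ht.per', ht.neg, hb1]
  rcases rep hn b with ⟨k, hk⟩ | ⟨c, k, hc1, hc2, hk | hk⟩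
  · exfalso
    apply hab
    rw [← hb2, hk, ht.mid]
  · by_cases hac : a = c
    · exfalso
      subst hac
      rw [hk, ht.per', hb1, hk] at hb2
      rcases mul_cases hn k with h3 | h3 | h3
      · omega
      · subst h3
        apply hab
        rw [hk]
        ring
      · omega
    · refine ⟨a, c, k, ha1, ha2, hc1, hc2, Or.inr (Or.inl ⟨hac, by rw [hb1, hk], ?_, ?_⟩)⟩
      · rw [hk, ht.per'] at hb2
        linarith
      · intro x hx h3 h4
        rw [mem_Icc] at hx
        apply hfix
        intro l
        rw [hk]
        have e1 := mul_cases hn l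
        have e2 := mul_cases hn (k + l)
        have e3 := mul_cases hn (l - k)
        have e4 : (k + l) * (2 * n + 2) = k * (2 * n + 2) + l * (2 * n + 2) := by ring
        have e5 : (l - k) * (2 * n + 2) = l * (2 * n + 2) - k * (2 * n + 2) := by ring
        rw [e4] at e2
        rw [e5] at e3
        refine ⟨?_, ?_, ?_, ?_⟩
        · intro h
          rcases e1 with e1 | e1 | e1
          · omega
          · subst e1; omega
          · omega
        · intro h
          rcases e2 with e2 | e2 | e2
          · omega
          · have : l = -k := by omega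
            subst this
            apply h4
            linarith
          · omega
        · intro h
          rcases e1 with e1 | e1 | e1
          · omega
          · subst e1; omega
          · omega
        · intro h
          rcases e3 with e3 | e3 | e3
          · omega
          · have : l = k := by omega
            subst this
            omega
          · omega
  · by_cases hac : a = c
    · subst hac
      have hfix' : ∀ x ∈ Icc 1 n, x ≠ a → t x = x := by
        intro x hx h3
        rw [mem_Icc] at hx
        apply hfix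
        intro l
        rw [hk]
        have e1 := mul_cases hn l
        have e2 := mul_cases hn (k + l)
        have e3 := mul_cases hn (l - k)
        have e4 : (k + l) * (2 * n + 2) = k * (2 * n + 2) + l * (2 * n + 2) := by ring
        have e5 : (l - k) * (2 * n + 2) = l * (2 * n + 2) - k * (2 * n + 2) := by ring
        rw [e4] at e2
        rw [e5] at e3
        refine ⟨?_, ?_, ?_, ?_⟩
        · intro h
          rcases e1 with e1 | e1 | e1
          · omega
          · subst e1; omega
          · omega
        · intro h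
          rcases e2 with e2 | e2 | e2
          · omega
          · have : l = -k := by omega
            subst this
            linarith
          · omega
        · intro h
          rcases e1 with e1 | e1 | e1
          · omega
          · subst e1; omega
          · omega
        · intro h
          rcases e3 with e3 | e3 | e3
          · omega
          · have : l = k := by omega
            subst this
            omega
          · omega
      refine ⟨a, a, k, ha1, ha2, ha1, ha2, Or.inl ⟨rfl, ?_, by rw [hb1, hk], hfix'⟩⟩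
      rintro rfl
      have h5 := par_one (n := n) t (fun x => x) a (mem_Icc.2 ⟨ha1, ha2⟩)
        (fun x hx h6 => (hfix' x hx h6).symm)
      have h6 : par n (fun x => x) = 0 := by
        unfold par
        apply sum_eq_zero
        intro x hx
        rw [mem_Icc] at hx
        rw [div_zero_of x (by omega) (by omega)]
        rfl
      rw [hpar, h6, hb1, hk, div_zero_of a (by omega) (by omega),
        div_neg_one_of (-a + 0 * (2 * n + 2)) (by omega) (by omega)] at h5
      revert h5
      decide
    · refine ⟨a, c, k, ha1, ha2, hc1, hc2, Or.inr (Or.inr ⟨hac, by rw [hb1, hk], ?_, ?_⟩)⟩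
      · rw [hk, ht.per', ht.neg] at hb2
        linarith
      · intro x hx h3 h4
        rw [mem_Icc] at hx
        apply hfix
        intro l
        rw [hk]
        have e1 := mul_cases hn l
        have e2 := mul_cases hn (k + l)
        have e3 := mul_cases hn (l - k)
        have e4 : (k + l) * (2 * n + 2) = k * (2 * n + 2) + l * (2 * n + 2) := by ring
        have e5 : (l - k) * (2 * n + 2) = l * (2 * n + 2) - k * (2 * n + 2) := by ring
        rw [e4] at e2
        rw [e5] at e3
        refine ⟨?_, ?_, ?_, ?_⟩
        · intro h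
          rcases e1 with e1 | e1 | e1
          · omega
          · subst e1; omega
          · omega
        · intro h
          rcases e2 with e2 | e2 | e2
          · omega
          · have : l = -k := by omega
            subst this
            linarith
          · omega
        · intro h
          rcases e1 with e1 | e1 | e1
          · omega
          · subst e1; omega
          · omega
        · intro h
          rcases e3 with e3 | e3 | e3
          · omega
          · have : l = k := by omega
            subst this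
            apply h4
            linarith
          · omega

lemma tvd_id (n : ℤ) : tvd n (fun x => x) = 0 := by
  unfold tvd
  apply sum_eq_zero
  intro x _
  simp

/-- Bounding the number of the odd good places from some place on. -/
lemma card_J {n : ℤ} (w : ℤ → ℤ) (m : ℤ) (J : Finset ℤ) (hJ : ∀ j ∈ J, j ∈ GS n w ∧ m ≤ j) :
    (J.card : ℤ) = 0 ∨ ∃ j₁, m ≤ j₁ ∧ j₁ ≤ n - 1 ∧ 1 ≤ j₁ ∧ Good w j₁ ∧
      (J.card : ℤ) ≤ n - j₁ := by
  rcases J.eq_empty_or_nonempty with h | h
  · left
    rw [h]
    rfl
  · right
    have h1 := hJ _ (J.min'_mem h)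
    have h2 := mem_GS.1 h1.1
    refine ⟨J.min' h, h1.2, h2.1.2, h2.1.1, h2.2.1, ?_⟩
    have h3 : J ⊆ Icc (J.min' h) (n - 1) := by
      intro j hj
      rw [mem_Icc]
      exact ⟨J.min'_le j hj, (mem_GS.1 (hJ j hj).1).1.2⟩
    have h4 := card_le_card h3
    rw [Int.card_Icc] at h4
    omega

lemma card_J' {n : ℤ} (w : ℤ → ℤ) (m m' : ℤ) (J : Finset ℤ)
    (hJ : ∀ j ∈ J, j ∈ GS n w ∧ m ≤ j ∧ j < m') :
    (J.card : ℤ) = 0 ∨ ∃ j₁ j₂, m ≤ j₁ ∧ j₁ ≤ j₂ ∧ j₂ < m' ∧ j₂ ≤ n - 1 ∧ 1 ≤ j₁ ∧ Good w j₁ ∧
      Good w j₂ ∧ (J.card : ℤ) ≤ j₂ - j₁ + 1 := by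
  rcases J.eq_empty_or_nonempty with h | h
  · left
    rw [h]
    rfl
  · right
    have h1 := hJ _ (J.min'_mem h)
    have h1' := hJ _ (J.max'_mem h)
    have h2 := mem_GS.1 h1.1
    have h2' := mem_GS.1 h1'.1
    refine ⟨J.min' h, J.max' h, h1.2.1, J.min'_le _ (J.max'_mem h), h1'.2.2, h2'.1.2, h2.1.1,
      h2.2.1, h2'.2.1, ?_⟩
    have h3 : J ⊆ Icc (J.min' h) (J.max' h) := by
      intro j hj
      rw [mem_Icc]
      exact ⟨J.min'_le j hj, J.le_max' j hj⟩
    have h4 := card_le_card h3
    rw [Int.card_Icc] at h4
    have h5 := J.min'_le _ (J.max'_mem h)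
    omega

lemma card_split {n : ℤ} (w u : ℤ → ℤ) (P : ℤ → Prop) [DecidablePred P]
    (h : ∀ j ∈ GS n w, ¬ P j → OG u j) :
    ((GS n w).card : ℤ) ≤ (GS n u).card + ((GS n w).filter P).card := by
  have h1 : GS n w ⊆ GS n u ∪ (GS n w).filter P := by
    intro j hj
    by_cases hP : P j
    · exact mem_union_right _ (mem_filter.2 ⟨hj, hP⟩)
    · exact mem_union_left _ (mem_GS.2 ⟨(mem_GS.1 hj).1, h j hj hP⟩)
  have h2 := card_le_card h1
  have h3 := card_union_le (GS n u) ((GS n w).filter P)
  omega

/-- The lower bound for one transposition. -/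
theorem lower {n : ℤ} (hn : 1 ≤ n) {u t : Equiv.Perm ℤ} (hu : Aff n u) (ht : Aff n t)
    (hpar : par n t = 0) {i j : ℤ} (hij : i ≠ j) (hT : IsTransposition n i j t) :
    tvd n (u * t : Equiv.Perm ℤ) + 2 * (GS n (u * t : Equiv.Perm ℤ)).card ≤
      tvd n u + 2 * (GS n u).card + tvd n t := by
  obtain ⟨a, c, k, ha1, ha2, hc1, hc2, hcases⟩ := window hn ht hpar hij hT
  have hw := hu.mul ht
  set w : Equiv.Perm ℤ := u * t with hwdef
  have haI : a ∈ Icc 1 n := mem_Icc.2 ⟨ha1, ha2⟩
  have hcI : c ∈ Icc 1 n := mem_Icc.2 ⟨hc1, hc2⟩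
  have hwx : ∀ x, w x = u (t x) := fun x => rfl
  rcases hcases with ⟨rfl, hk, hta, hfix⟩ | ⟨hac, hta, htc, hfix⟩ | ⟨hac, hta, htc, hfix⟩
  · -- the same class
    have e1 : w a = -u a + k * (2 * n + 2) := by rw [hwx, hta, hu.per', hu.neg]
    have e2 : ∀ x ∈ Icc 1 n, x ≠ a → u x = w x := fun x hx h => by rw [hwx, hfix x hx h]
    have e3 := tvd_one w u a haI e2
    have e4 := tvd_one (n := n) t (fun x => x) a haI (fun x hx h => (hfix x hx h).symm)
    rw [tvd_id] at e4
    have e5 := card_split (n := n) w u (fun j => a ≤ j) (fun j hj hP => by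
      rw [← OG_congr w u j (fun x hx => ?_)]
      · exact (mem_GS.1 hj).2
      · rw [mem_Icc] at hx
        have := mem_GS.1 hj
        exact (e2 x (mem_Icc.2 ⟨hx.1, by omega⟩) (by omega)).symm)
    have e6 := card_J (n := n) w a ((GS n w).filter (fun j => a ≤ j)) (fun j hj => by
      rw [mem_filter] at hj
      exact hj)
    rw [hta] at e4
    simp only [sub_self, abs_zero, sub_zero] at e4
    have e7 := mul_cases hn k
    generalize k * (2 * n + 2) = K at *
    generalize ((GS n w).card : ℤ) = A at *
    generalize ((GS n u).card : ℤ) = B at *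
    generalize (((GS n w).filter (fun j => a ≤ j)).card : ℤ) = C at *
    have q1 := absd (w a - a)
    have q2 := absd (u a - a)
    have q3 := absd (-a + K - a)
    rcases e6 with e6 | ⟨j₁, f1, f2, f3, f4, f5⟩
    · omega
    · have f6 := f4 a (mem_Icc.2 ⟨ha1, f1⟩)
      have q4 := absd (w a)
      omega
  · have e1 : w a = u c + k * (2 * n + 2) := by rw [hwx, hta, hu.per']
    have e1' : w c = u a - k * (2 * n + 2) := by
      rw [hwx, htc, show a - k * (2 * n + 2) = a + (-k) * (2 * n + 2) by ring, hu.per']
      ring
    have e2 : ∀ x ∈ Icc 1 n, x ≠ a → x ≠ c → u x = w x := fun x hx h h' => by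
      rw [hwx, hfix x hx h h']
    have e3 := tvd_two w u a c hac haI hcI e2
    have e4 := tvd_two (n := n) t (fun x => x) a c hac haI hcI
      (fun x hx h h' => (hfix x hx h h').symm)
    rw [tvd_id, hta, htc] at e4
    simp only [sub_self, abs_zero, sub_zero] at e4
    have q1 := absd (w a - a)
    have q2 := absd (u a - a)
    have q3 := absd (w c - c)
    have q4 := absd (u c - c)
    have q5 := absd (c + k * (2 * n + 2) - a)
    have q6 := absd (a - k * (2 * n + 2) - c)
    rcases mul_cases hn k with hk | rfl | hk
    · have e5 := card_split (n := n) w u (fun j => min a c ≤ j) (fun j hj hP => by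
        rw [← OG_congr w u j (fun x hx => ?_)]
        · exact (mem_GS.1 hj).2
        · rw [mem_Icc] at hx
          have := mem_GS.1 hj
          exact (e2 x (mem_Icc.2 ⟨hx.1, by omega⟩) (by omega) (by omega)).symm)
      have e6 := card_J (n := n) w (min a c) ((GS n w).filter (fun j => min a c ≤ j))
        (fun j hj => by
          rw [mem_filter] at hj
          exact hj)
      generalize k * (2 * n + 2) = K at *
      generalize ((GS n w).card : ℤ) = A at *
      generalize ((GS n u).card : ℤ) = B at *
      generalize (((GS n w).filter (fun j => min a c ≤ j)).card : ℤ) = C at *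
      rcases e6 with e6 | ⟨j₁, f1, f2, f3, f4, f5⟩
      · omega
      · by_cases g : a ≤ j₁
        · have f6 := f4 a (mem_Icc.2 ⟨ha1, g⟩)
          have q7 := absd (w a)
          omega
        · have f6 := f4 c (mem_Icc.2 ⟨hc1, by omega⟩)
          have q7 := absd (w c)
          omega
    · -- a transposition inside the window
      simp only [zero_mul, add_zero, sub_zero] at e1 e1' e4 q5 q6
      have e5 := card_split (n := n) w u (fun j => min a c ≤ j ∧ j < max a c) (fun j hj hP => by
        have hj' := mem_GS.1 hj
        by_cases g : j < min a c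
        · rw [← OG_congr w u j (fun x hx => ?_)]
          · exact hj'.2
          · rw [mem_Icc] at hx
            exact (e2 x (mem_Icc.2 ⟨hx.1, by omega⟩) (by omega) (by omega)).symm
        · rw [← OG_swap w u a c j hac (mem_Icc.2 ⟨ha1, by omega⟩) (mem_Icc.2 ⟨hc1, by omega⟩)
            (fun x hx h h' => e2 x (mem_Icc.2 ⟨(mem_Icc.1 hx).1, by
              have := (mem_Icc.1 hx).2
              omega⟩) h h') (hw.ne_zero hn a ha1 ha2) (hw.ne_zero hn c hc1 hc2)
            (Or.inl ⟨e1'.symm, e1.symm⟩)]
          exact hj'.2)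
      have e6 := card_J' (n := n) w (min a c) (max a c)
        ((GS n w).filter (fun j => min a c ≤ j ∧ j < max a c)) (fun j hj => by
          rw [mem_filter] at hj
          exact hj)
      generalize ((GS n w).card : ℤ) = A at *
      generalize ((GS n u).card : ℤ) = B at *
      generalize (((GS n w).filter (fun j => min a c ≤ j ∧ j < max a c)).card : ℤ) = C at *
      rcases e6 with e6 | ⟨j₁, j₂, f1, f2, f3, f4, f5, f6, f7, f8⟩
      · omega
      · have q7 := absd (w a)
        have q8 := absd (w c)
        rcases lt_or_gt_of_ne hac with g | g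
        · have f9 := f6 a (mem_Icc.2 ⟨ha1, by omega⟩)
          have f10 := hw.outside hn j₂ c (by omega) f7 (by omega) hc2
          omega
        · have f9 := f6 c (mem_Icc.2 ⟨hc1, by omega⟩)
          have f10 := hw.outside hn j₂ a (by omega) f7 (by omega) ha2
          omega
    · have e5 := card_split (n := n) w u (fun j => min a c ≤ j) (fun j hj hP => by
        rw [← OG_congr w u j (fun x hx => ?_)]
        · exact (mem_GS.1 hj).2
        · rw [mem_Icc] at hx
          have := mem_GS.1 hj
          exact (e2 x (mem_Icc.2 ⟨hx.1, by omega⟩) (by omega) (by omega)).symm)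
      have e6 := card_J (n := n) w (min a c) ((GS n w).filter (fun j => min a c ≤ j))
        (fun j hj => by
          rw [mem_filter] at hj
          exact hj)
      generalize k * (2 * n + 2) = K at *
      generalize ((GS n w).card : ℤ) = A at *
      generalize ((GS n u).card : ℤ) = B at *
      generalize (((GS n w).filter (fun j => min a c ≤ j)).card : ℤ) = C at *
      rcases e6 with e6 | ⟨j₁, f1, f2, f3, f4, f5⟩
      · omega
      · by_cases g : a ≤ j₁
        · have f6 := f4 a (mem_Icc.2 ⟨ha1, g⟩)
          have q7 := absd (w a)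
          omega
        · have f6 := f4 c (mem_Icc.2 ⟨hc1, by omega⟩)
          have q7 := absd (w c)
          omega
  · have e1 : w a = -u c + k * (2 * n + 2) := by rw [hwx, hta, hu.per', hu.neg]
    have e1' : w c = -u a + k * (2 * n + 2) := by rw [hwx, htc, hu.per', hu.neg]
    have e2 : ∀ x ∈ Icc 1 n, x ≠ a → x ≠ c → u x = w x := fun x hx h h' => by
      rw [hwx, hfix x hx h h']
    have e3 := tvd_two w u a c hac haI hcI e2
    have e4 := tvd_two (n := n) t (fun x => x) a c hac haI hcI
      (fun x hx h h' => (hfix x hx h h').symm)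
    rw [tvd_id, hta, htc] at e4
    simp only [sub_self, abs_zero, sub_zero] at e4
    have q1 := absd (w a - a)
    have q2 := absd (u a - a)
    have q3 := absd (w c - c)
    have q4 := absd (u c - c)
    have q5 := absd (-c + k * (2 * n + 2) - a)
    have q6 := absd (-a + k * (2 * n + 2) - c)
    rcases mul_cases hn k with hk | rfl | hk
    · have e5 := card_split (n := n) w u (fun j => min a c ≤ j) (fun j hj hP => by
        rw [← OG_congr w u j (fun x hx => ?_)]
        · exact (mem_GS.1 hj).2
        · rw [mem_Icc] at hx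
          have := mem_GS.1 hj
          exact (e2 x (mem_Icc.2 ⟨hx.1, by omega⟩) (by omega) (by omega)).symm)
      have e6 := card_J (n := n) w (min a c) ((GS n w).filter (fun j => min a c ≤ j))
        (fun j hj => by
          rw [mem_filter] at hj
          exact hj)
      generalize k * (2 * n + 2) = K at *
      generalize ((GS n w).card : ℤ) = A at *
      generalize ((GS n u).card : ℤ) = B at *
      generalize (((GS n w).filter (fun j => min a c ≤ j)).card : ℤ) = C at *
      rcases e6 with e6 | ⟨j₁, f1, f2, f3, f4, f5⟩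
      · omega
      · by_cases g : a ≤ j₁
        · have f6 := f4 a (mem_Icc.2 ⟨ha1, g⟩)
          have q7 := absd (w a)
          omega
        · have f6 := f4 c (mem_Icc.2 ⟨hc1, by omega⟩)
          have q7 := absd (w c)
          omega
    · simp only [zero_mul, add_zero] at e1 e1' e4 q5 q6
      have e5 := card_split (n := n) w u (fun j => min a c ≤ j ∧ j < max a c) (fun j hj hP => by
        have hj' := mem_GS.1 hj
        by_cases g : j < min a c
        · rw [← OG_congr w u j (fun x hx => ?_)]
          · exact hj'.2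
          · rw [mem_Icc] at hx
            exact (e2 x (mem_Icc.2 ⟨hx.1, by omega⟩) (by omega) (by omega)).symm
        · rw [← OG_swap w u a c j hac (mem_Icc.2 ⟨ha1, by omega⟩) (mem_Icc.2 ⟨hc1, by omega⟩)
            (fun x hx h h' => e2 x (mem_Icc.2 ⟨(mem_Icc.1 hx).1, by
              have := (mem_Icc.1 hx).2
              omega⟩) h h') (hw.ne_zero hn a ha1 ha2) (hw.ne_zero hn c hc1 hc2)
            (Or.inr ⟨by rw [e1', neg_neg], by rw [e1, neg_neg]⟩)]
          exact hj'.2)
      have e6 := card_J' (n := n) w (min a c) (max a c)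
        ((GS n w).filter (fun j => min a c ≤ j ∧ j < max a c)) (fun j hj => by
          rw [mem_filter] at hj
          exact hj)
      generalize ((GS n w).card : ℤ) = A at *
      generalize ((GS n u).card : ℤ) = B at *
      generalize (((GS n w).filter (fun j => min a c ≤ j ∧ j < max a c)).card : ℤ) = C at *
      rcases e6 with e6 | ⟨j₁, j₂, f1, f2, f3, f4, f5, f6, f7, f8⟩
      · omega
      · have q7 := absd (w a)
        have q8 := absd (w c)
        rcases lt_or_gt_of_ne hac with g | g
        · have f9 := f6 a (mem_Icc.2 ⟨ha1, by omega⟩)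
          have f10 := hw.outside hn j₂ c (by omega) f7 (by omega) hc2
          omega
        · have f9 := f6 c (mem_Icc.2 ⟨hc1, by omega⟩)
          have f10 := hw.outside hn j₂ a (by omega) f7 (by omega) ha2
          omega
    · have e5 := card_split (n := n) w u (fun j => min a c ≤ j) (fun j hj hP => by
        rw [← OG_congr w u j (fun x hx => ?_)]
        · exact (mem_GS.1 hj).2
        · rw [mem_Icc] at hx
          have := mem_GS.1 hj
          exact (e2 x (mem_Icc.2 ⟨hx.1, by omega⟩) (by omega) (by omega)).symm)
      have e6 := card_J (n := n) w (min a c) ((GS n w).filter (fun j => min a c ≤ j))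
        (fun j hj => by
          rw [mem_filter] at hj
          exact hj)
      generalize k * (2 * n + 2) = K at *
      generalize ((GS n w).card : ℤ) = A at *
      generalize ((GS n u).card : ℤ) = B at *
      generalize (((GS n w).filter (fun j => min a c ≤ j)).card : ℤ) = C at *
      rcases e6 with e6 | ⟨j₁, f1, f2, f3, f4, f5⟩
      · omega
      · by_cases g : a ≤ j₁
        · have f6 := f4 a (mem_Icc.2 ⟨ha1, g⟩)
          have q7 := absd (w a)
          omega
        · have f6 := f4 c (mem_Icc.2 ⟨hc1, by omega⟩)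
          have q7 := absd (w c)
          omega

end Pool.Agent.Q285.AC
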