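import Pool.Agent.Q285.AC.Upper

/-!
# The case analysis
-/

namespace Pool.Agent.Q285.AC

open Finset

section

variable {n : ℤ} {w : Equiv.Perm ℤ}

lemma Aff.ne_zero' (h : Aff n w) (i : ℤ) (h1 : 1 ≤ i) : w i ≠ 0 := by
  have h0 := h.mid 0
  rw [zero_mul] at h0
  rw [← h0]
  intro h3
  have := w.injective h3
  omega

/-- The pigeonhole principle, for all positive places. -/
lemma Aff.pigeon' (h : Aff n w) (S : Finset ℤ) (m : ℤ) (hS : ∀ x ∈ S, 1 ≤ x)
    (hSm : ∀ i ∈ S, |w i| ≤ m) (hcard : (S.card : ℤ) = m) (i : ℤ) (h1 : 1 ≤ i) (hi : i ∉ S) :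
    m < |w i| := by
  by_contra hcon
  push Not at hcon
  have h3 : ∀ z ∈ insert i S, 1 ≤ z := by
    intro z hz
    rcases mem_insert.1 hz with rfl | hz
    · exact h1
    · exact hS z hz
  have hmaps : ∀ x ∈ insert i S, |w x| ∈ Icc 1 m := by
    intro x hx
    rw [mem_Icc]
    refine ⟨Int.one_le_abs (h.ne_zero' x (h3 x hx)), ?_⟩
    rcases mem_insert.1 hx with rfl | hx
    · exact hcon
    · exact hSm x hx
  have hinj : Set.InjOn (fun x => |w x|) (insert i S : Finset ℤ) := by
    intro x hx y hy hxy
    exact h.abs_inj x y (h3 x hx) (h3 y hy) hxy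
  have h4 := card_le_card_of_injOn _ hmaps hinj
  rw [card_insert_of_notMem hi, Int.card_Icc] at h4
  omega

/-- If the values on an interval of places are at most the place and larger than its left end,
then the places are fixed. -/
lemma fix_interval (l m : ℤ) (hl : ∀ i, l < i → i ≤ m → w i ≤ i ∧ l < w i) :
    ∀ i, l < i → i ≤ m → w i = i := by
  have key : ∀ k : ℕ, ∀ i, l < i → i ≤ m → i - l ≤ k → w i = i := by
    intro k
    induction k with
    | zero => intro i h1 h2 h3; omega
    | succ k ih =>
      intro i h1 h2 h3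
      obtain ⟨h4, h5⟩ := hl i h1 h2
      by_contra h6
      have h7 : w i < i := by omega
      have h8 := ih (w i) h5 (by omega) (by push_cast at h3; omega)
      exact h6 (w.injective h8)
  intro i h1 h2
  exact key (i - l).toNat i h1 h2 (by omega)

lemma eq_one_of_fix (hn : 1 ≤ n) (h : Aff n w) (hf : ∀ i, 1 ≤ i → i ≤ n → w i = i) : w = 1 := by
  ext x
  rw [Equiv.Perm.one_apply]
  rcases rep hn x with ⟨k, rfl⟩ | ⟨i, k, h1, h2, rfl | rfl⟩
  · exact h.mid k
  · rw [h.per', hf i h1 h2]
  · rw [h.per', h.neg, hf i h1 h2]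

/-- The least element of an interval with a given property. -/
lemma exists_least (P : ℤ → Prop) (l m : ℤ) (h : ∃ i, l < i ∧ i ≤ m ∧ P i) :
    ∃ i, l < i ∧ i ≤ m ∧ P i ∧ ∀ j, l < j → j < i → ¬ P j := by
  classical
  obtain ⟨i, h1, h2, h3⟩ := h
  have hne : ((Icc (l + 1) m).filter P).Nonempty := ⟨i, by
    rw [mem_filter, mem_Icc]
    exact ⟨⟨by omega, h2⟩, h3⟩⟩
  have h4 := min'_mem _ hne
  rw [mem_filter, mem_Icc] at h4
  refine ⟨_, by omega, h4.1.2, h4.2, fun j h5 h6 h7 => ?_⟩
  have h8 := min'_le ((Icc (l + 1) m).filter P) j (by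
    rw [mem_filter, mem_Icc]
    exact ⟨⟨by omega, by omega⟩, h7⟩)
  omega

/-- The greatest element of an interval with a given property. -/
lemma exists_greatest (P : ℤ → Prop) (l m : ℤ) (h : ∃ i, l < i ∧ i ≤ m ∧ P i) :
    ∃ i, l < i ∧ i ≤ m ∧ P i ∧ ∀ j, i < j → j ≤ m → ¬ P j := by
  classical
  obtain ⟨i, h1, h2, h3⟩ := h
  have hne : ((Icc (l + 1) m).filter P).Nonempty := ⟨i, by
    rw [mem_filter, mem_Icc]
    exact ⟨⟨by omega, h2⟩, h3⟩⟩
  have h4 := max'_mem _ hne
  rw [mem_filter, mem_Icc] at h4
  refine ⟨_, by omega, h4.1.2, h4.2, fun j h5 h6 h7 => ?_⟩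
  have h8 := le_max' ((Icc (l + 1) m).filter P) j (by
    rw [mem_filter, mem_Icc]
    exact ⟨⟨by omega, by omega⟩, h7⟩)
  omega

lemma sg_nonneg (u : ℤ → ℤ) (j : ℤ) (hj : 0 ≤ j) (h : ∀ l, 0 < l → l ≤ j → 0 ≤ u l) :
    sg u j = 0 := by
  rw [sg_extend u 0 j hj h, sg_zero]

/-- The last excedance is followed by fixed places only. -/
lemma case_fixed (hn : 1 ≤ n) (hw : Aff n w) (hpar : par n w = 0) (a : ℤ) (ha : 1 ≤ a)
    (han : a ≤ n) (hex : a < w a) (hfix : ∀ i, a < i → i ≤ n → w i = i) : Step n w := by
  have hv : 2 * n + 2 - a ≤ w a := by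
    by_contra hcon
    push Not at hcon
    rcases lt_trichotomy (w a) (n + 1) with h | h | h
    · have h1 := hfix (w a) hex (by omega)
      have h2 := w.injective h1
      omega
    · exact hw.ne_mid hn a ha han 1 (by rw [h]; ring)
    · have h1 := hfix (2 * n + 2 - w a) (by omega) (by omega)
      have h2 : w (w a) = w a := by
        have h3 := hw.per (-(2 * n + 2 - w a))
        rw [hw.neg, h1] at h3
        rw [show -(2 * n + 2 - w a) + (2 * n + 2) = w a by ring] at h3
        exact h3
      have h3 := w.injective h2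
      omega
  let w' : ℤ → ℤ := fun x => if x = a then 2 * n + 2 - w a else w x
  have e1 : w' a = 2 * n + 2 - w a := if_pos rfl
  have e3 : ∀ x ∈ Icc 1 n, x ≠ a → w' x = w x := fun x _ hx => if_neg hx
  have hT := tvd_one (n := n) w w' a (mem_Icc.2 ⟨ha, han⟩) e3
  have hG := GS_diff (n := n) w w' a n n ha han le_rfl le_rfl
    (fun j h1 h2 h3 => OG_congr _ _ j fun i hi => by
      rw [mem_Icc] at hi
      exact (e3 i (mem_Icc.2 ⟨hi.1, by omega⟩) (by omega)).symm)
    (fun j h1 h2 h3 => by
      -- the parity
      have hs : sg w' n = sg w' j := by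
        apply sg_extend
        · omega
        · intro l h4 h5
          rw [e3 l (mem_Icc.2 ⟨by omega, h5⟩) (by omega), hfix l (by omega) h5]
          omega
      have hg : ∀ i ∈ Icc 1 n, -(2 * n + 2) ≤ w' i ∧ w' i < 2 * n + 2 := by
        intro i hi
        rw [mem_Icc] at hi
        by_cases h4 : i ≤ j
        · have h5 := h3.1 i (mem_Icc.2 ⟨hi.1, h4⟩)
          have h6 := absd (w' i)
          omega
        · rw [e3 i (mem_Icc.2 hi) (by omega), hfix i (by omega) hi.2]
          omega
      have hp := par_eq_sg (n := n) w' hg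
      have hp2 := par_one (n := n) w w' a (mem_Icc.2 ⟨ha, han⟩) e3
      have p3 : (2 * n + 2 - w a) / (2 * n + 2) = -(w a / (2 * n + 2)) := by
        rw [show 2 * n + 2 - w a = -w a + 1 * (2 * n + 2) by ring,
          Int.add_mul_ediv_right _ _ (by omega), neg_div hn _ (hw.not_dvd hn a ha han)]
        ring
      rw [e1, p3, hpar, hp, hs, h3.2] at hp2
      revert hp2
      push_cast
      generalize ((w a / (2 * n + 2) : ℤ) : ZMod 2) = x
      revert x
      decide)
    (fun j h1 h2 h3 => by
      have h4 := h3.1 a (mem_Icc.2 ⟨ha, h1⟩)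
      have h5 := absd (w a)
      omega)
    (fun j h1 h2 => by omega)
  have q1 := absd (w a - a)
  have q2 := absd (w' a - a)
  apply stepC hn hw hpar a ha han w' e1 e3
  rw [e1] at q2 hT
  omega

/-- There is an excedance and the last one is not followed by fixed places only. -/
lemma case_exc (hn : 1 ≤ n) (hw : Aff n w) (hpar : par n w = 0) (a : ℤ) (ha : 1 ≤ a)
    (han : a ≤ n) (hex : a < w a) (hlast : ∀ i, a < i → i ≤ n → w i ≤ i) (b : ℤ) (hab : a < b)
    (hbn : b ≤ n) (hb : w b ≠ b) (hfix : ∀ i, a < i → i < b → w i = i) : Step n w := by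
  have hwb : w b < b := lt_of_le_of_ne (hlast b hab hbn) hb
  have hv : b ≤ w a := by
    by_contra hcon
    push Not at hcon
    have h1 := w.injective (hfix (w a) hex hcon)
    omega
  have hwb' : w b ≤ a := by
    by_contra hcon
    push Not at hcon
    exact hb (w.injective (hfix (w b) hcon hwb))
  let w' : ℤ → ℤ := fun x => if x = a then w b else if x = b then w a else w x
  have e1 : w' a = w b := if_pos rfl
  have e2 : w' b = w a := by
    simp only [w']
    rw [if_neg (by omega), if_pos trivial]
  have e3 : ∀ x, x ≠ a → x ≠ b → w' x = w x := fun x h1 h2 => by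
    simp only [w']
    rw [if_neg h1, if_neg h2]
  by_cases hbad : ∃ j, a ≤ j ∧ j < b ∧ OG w' j
  swap
  · have hT := tvd_two (n := n) w w' a b (by omega) (mem_Icc.2 ⟨ha, han⟩)
      (mem_Icc.2 ⟨by omega, hbn⟩) (fun x _ => e3 x)
    have hG := GS_diff (n := n) w w' a b b ha (by omega) le_rfl hbn
      (fun j h1 h2 h3 => by
        rcases h3 with h3 | h3
        · exact OG_congr _ _ j fun i hi => by
            rw [mem_Icc] at hi
            exact (e3 i (by omega) (by omega)).symm
        · exact OG_swap _ _ a b j (by omega) (mem_Icc.2 ⟨ha, by omega⟩)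
            (mem_Icc.2 ⟨by omega, h3⟩) (fun x _ => e3 x) (hw.ne_zero hn a ha han)
            (hw.ne_zero hn b (by omega) hbn) (Or.inl ⟨e1, e2⟩))
      (fun j h1 h2 h3 => hbad ⟨j, h1, h2, h3⟩)
      (fun j h1 h2 h3 => by
        have h4 := h3.1 a (mem_Icc.2 ⟨ha, h1⟩)
        have h5 := absd (w a)
        omega)
      (fun j h1 h2 => by omega)
    have q1 := absd (w a - a)
    have q2 := absd (w b - b)
    have q3 := absd (w b - a)
    have q4 := absd (w a - b)
    apply stepA hn hpar a b ha hab hbn w' e1 e2 (fun x _ => e3 x)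
    rw [e1, e2] at hT
    omega
  -- the bad case
  obtain ⟨j₀, hj1, hj2, hg0, hs0⟩ := hbad
  have B1 : ∀ i, 1 ≤ i → i < a → |w i| ≤ a := by
    intro i h1 h2
    by_contra hcon
    push Not at hcon
    have h3 := hg0 i (mem_Icc.2 ⟨h1, by omega⟩)
    rw [e3 i (by omega) (by omega)] at h3
    have h4 := hfix |w i| hcon (by omega)
    have h5 := hw.abs_inj i |w i| h1 (by omega) (by rw [h4, abs_abs])
    omega
  have B2 : |w b| ≤ a := by
    by_contra hcon
    push Not at hcon
    have h3 := hg0 a (mem_Icc.2 ⟨ha, hj1⟩)
    rw [e1] at h3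
    have h4 := hfix |w b| hcon (by omega)
    have h5 := hw.abs_inj b |w b| (by omega) (by omega) (by rw [h4, abs_abs])
    omega
  have B3 : sg w' b = 1 := by
    rw [← hs0]
    apply sg_extend _ _ _ (by omega)
    intro l h1 h2
    rcases Int.lt_or_eq_of_le h2 with h3 | h3
    · rw [e3 l (by omega) (by omega), hfix l (by omega) h3]
      omega
    · rw [h3, e2]
      omega
  have B4 : sg w b = 1 := by
    have h1 := sg_two w w' a b b (by omega) (mem_Icc.2 ⟨ha, by omega⟩)
      (mem_Icc.2 ⟨by omega, le_rfl⟩) (fun x _ => e3 x)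
    rw [e1, e2, B3] at h1
    linear_combination h1
  -- the places other than those of the small block have large values
  let S : Finset ℤ := insert b (Icc 1 (a - 1))
  have hbS : b ∉ Icc 1 (a - 1) := by
    rw [mem_Icc]
    omega
  have hScard : (S.card : ℤ) = a := by
    rw [card_insert_of_notMem hbS, Int.card_Icc]
    push_cast
    omega
  have hSw : ∀ i ∈ S, |w i| ≤ a := by
    intro i hi
    rcases mem_insert.1 hi with rfl | hi
    · exact B2
    · rw [mem_Icc] at hi
      exact B1 i hi.1 (by omega)
  have hS1 : ∀ i ∈ S, 1 ≤ i := by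
    intro i hi
    rcases mem_insert.1 hi with rfl | hi
    · omega
    · rw [mem_Icc] at hi
      exact hi.1
  have hlarge : ∀ i, b < i → b ≤ |w i| := by
    intro i h1
    have h2 := hw.pigeon' S a hS1 hSw hScard i (by omega) (by
      intro h3
      rcases mem_insert.1 h3 with h3 | h3
      · omega
      · rw [mem_Icc] at h3
        omega)
    by_contra hcon
    push Not at hcon
    have h4 := hfix |w i| h2 hcon
    have h5 := hw.abs_inj i |w i| (by omega) (by omega) (by rw [h4, abs_abs])
    omega
  by_cases hneg : ∃ i, b < i ∧ i ≤ n ∧ (i ≤ w a ∧ w i < 0)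
  · obtain ⟨i, hi1, hi2, ⟨hi3, hi4⟩, hi5⟩ := exists_least _ b n hneg
    let w₂ : ℤ → ℤ := fun x => if x = a then w i else if x = i then w a else w x
    have f1 : w₂ a = w i := if_pos rfl
    have f2 : w₂ i = w a := by
      simp only [w₂]
      rw [if_neg (by omega), if_pos trivial]
    have f3 : ∀ x, x ≠ a → x ≠ i → w₂ x = w x := fun x h1 h2 => by
      simp only [w₂]
      rw [if_neg h1, if_neg h2]
    have hT := tvd_two (n := n) w w₂ a i (by omega) (mem_Icc.2 ⟨ha, han⟩)
      (mem_Icc.2 ⟨by omega, hi2⟩) (fun x _ => f3 x)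
    have hG := GS_diff (n := n) w w₂ a i i ha (by omega) le_rfl hi2
      (fun j h1 h2 h3 => by
        rcases h3 with h3 | h3
        · exact OG_congr _ _ j fun x hx => by
            rw [mem_Icc] at hx
            exact (f3 x (by omega) (by omega)).symm
        · exact OG_swap _ _ a i j (by omega) (mem_Icc.2 ⟨ha, by omega⟩)
            (mem_Icc.2 ⟨by omega, h3⟩) (fun x _ => f3 x) (hw.ne_zero hn a ha han)
            (hw.ne_zero hn i (by omega) hi2) (Or.inl ⟨f1, f2⟩))
      (fun j h1 h2 h3 => by
        have h4 := h3.1 a (mem_Icc.2 ⟨ha, h1⟩)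
        rw [f1] at h4
        have h5 := hlarge i hi1
        have h6 : sg w₂ j = sg w₂ b := by
          apply sg_extend _ _ _ (by omega)
          intro l h7 h8
          rw [f3 l (by omega) (by omega)]
          by_contra h9
          exact hi5 l h7 (by omega) ⟨by omega, by omega⟩
        have h7 := sg_one w w₂ a b (mem_Icc.2 ⟨ha, by omega⟩) (fun x hx h8 => by
          rw [mem_Icc] at hx
          exact f3 x h8 (by omega))
        have h8 := h3.2
        rw [h6] at h8
        rw [h8, B4, f1, if_neg (by omega), if_pos hi4] at h7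
        revert h7
        decide)
      (fun j h1 h2 h3 => by
        have h4 := h3.1 a (mem_Icc.2 ⟨ha, h1⟩)
        have h5 := absd (w a)
        omega)
      (fun j h1 h2 => by omega)
    have q1 := absd (w a - a)
    have q2 := absd (w i - i)
    have q3 := absd (w i - a)
    have q4 := absd (w a - i)
    apply stepA hn hpar a i ha (by omega) hi2 w₂ f1 f2 (fun x _ => f3 x)
    rw [f1, f2] at hT
    omega
  push Not at hneg
  by_cases hvn : n < w a
  · -- the value of `a` is outside the window
    have hpos : ∀ i, b < i → i ≤ n → 0 ≤ w i := fun i h1 h2 => hneg i h1 h2 (by omega)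
    have hsn : sg w n = 1 := by
      rw [← B4]
      exact sg_extend _ _ _ hbn hpos
    have hvN : 2 * n + 2 ≤ w a := by
      by_contra hcon
      push Not at hcon
      have h1 : ∀ i ∈ Icc 1 n, -(2 * n + 2) ≤ w i ∧ w i < 2 * n + 2 := by
        intro i hi
        rw [mem_Icc] at hi
        rcases lt_trichotomy i a with h2 | h2 | h2
        · have h3 := B1 i hi.1 h2
          have h4 := absd (w i)
          omega
        · rw [h2]
          omega
        · rcases lt_trichotomy i b with h3 | h3 | h3
          · rw [hfix i h2 h3]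
            omega
          · rw [h3]
            have h4 := absd (w b)
            omega
          · have h4 := hpos i h3 hi.2
            have h5 := hlast i h2 hi.2
            omega
      have h2 := par_eq_sg (n := n) w h1
      rw [hpar, hsn] at h2
      revert h2
      decide
    have hvN' : w a ≠ 2 * n + 2 := by
      intro h
      exact hw.ne_mid hn a ha han 2 (by rw [h]; ring)
    let w₂ : ℤ → ℤ := fun x => if x = a then 2 * n + 2 - w a else w x
    have f1 : w₂ a = 2 * n + 2 - w a := if_pos rfl
    have f3 : ∀ x, x ≠ a → w₂ x = w x := fun x hx => if_neg hx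
    have hT := tvd_one (n := n) w w₂ a (mem_Icc.2 ⟨ha, han⟩) (fun x _ => f3 x)
    have hG := GS_diff (n := n) w w₂ a n n ha han le_rfl le_rfl
      (fun j h1 h2 h3 => OG_congr _ _ j fun i hi => by
        rw [mem_Icc] at hi
        exact (f3 i (by omega)).symm)
      (fun j h1 h2 h3 => by
        have h4 := h3.1 a (mem_Icc.2 ⟨ha, h1⟩)
        rw [f1] at h4
        have h5 : w (2 * n + 2 - a) = 2 * n + 2 - w a := by
          have h6 := hw.per (-a)
          rw [hw.neg] at h6
          rw [show 2 * n + 2 - a = -a + (2 * n + 2) by ring, h6]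
          ring
        have h6 : b ≤ j := by
          have h7 := hlarge (2 * n + 2 - a) (by omega)
          rw [h5] at h7
          omega
        have h7 : sg w₂ j = sg w₂ b := by
          apply sg_extend _ _ _ h6
          intro l h8 h9
          rw [f3 l (by omega)]
          exact hpos l h8 (by omega)
        have h8 := sg_one w w₂ a b (mem_Icc.2 ⟨ha, by omega⟩) (fun x hx => f3 x)
        have h9 := h3.2
        rw [h7] at h9
        rw [h9, B4, f1, if_neg (by omega), if_pos (by omega)] at h8
        revert h8
        decide)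
      (fun j h1 h2 h3 => by
        have h4 := h3.1 a (mem_Icc.2 ⟨ha, h1⟩)
        have h5 := absd (w a)
        omega)
      (fun j h1 h2 => by omega)
    have q1 := absd (w a - a)
    have q2 := absd (2 * n + 2 - w a - a)
    apply stepC hn hw hpar a ha han w₂ f1 (fun x _ => f3 x)
    rw [f1] at hT
    omega
  · -- the closed odd block
    push Not at hvn
    have hpos : ∀ i, b < i → i ≤ w a → 0 ≤ w i := fun i h1 h2 => hneg i h1 (by omega) h2
    have hgv : ∀ i, 1 ≤ i → i ≤ w a → |w i| ≤ w a := by
      intro i hi1 hi2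
      rcases lt_trichotomy i a with h2 | h2 | h2
      · have h3 := B1 i hi1 h2
        omega
      · rw [h2, abs_of_nonneg (by omega)]
      · rcases lt_trichotomy i b with h3 | h3 | h3
        · rw [hfix i h2 h3]
          have h4 := absd i
          omega
        · rw [h3]
          omega
        · have h4 := hpos i h3 hi2
          have h5 := hlast i h2 (by omega)
          rw [abs_of_nonneg h4]
          omega
    have hsv : sg w (w a) = 1 := by
      rw [← B4]
      exact sg_extend _ _ _ hv hpos
    have hnon : ∃ i, w a < i ∧ i ≤ n ∧ w i ≠ i := by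
      by_contra hcon
      push Not at hcon
      have h1 : ∀ i ∈ Icc 1 n, -(2 * n + 2) ≤ w i ∧ w i < 2 * n + 2 := by
        intro i hi
        rw [mem_Icc] at hi
        by_cases h2 : i ≤ w a
        · have h3 := hgv i hi.1 h2
          have h4 := absd (w i)
          omega
        · rw [hcon i (by omega) hi.2]
          omega
      have h2 := par_eq_sg (n := n) w h1
      have h3 : sg w n = sg w (w a) := by
        apply sg_extend _ _ _ hvn
        intro l h4 h5
        rw [hcon l h4 h5]
        omega
      rw [hpar, h3, hsv] at h2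
      revert h2
      decide
    obtain ⟨p, hp1, hp2, hp3, hp4⟩ := exists_least _ (w a) n hnon
    have hfixp : ∀ i, w a < i → i < p → w i = i := by
      intro i h1 h2
      by_contra h3
      exact hp4 i h1 h2 h3
    have hgj : ∀ j, w a ≤ j → j < p → Good w j := by
      intro j h1 h2 i hi
      rw [mem_Icc] at hi
      by_cases h3 : i ≤ w a
      · have h4 := hgv i hi.1 h3
        omega
      · rw [hfixp i (by omega) (by omega), abs_of_nonneg (by omega)]
        exact hi.2
    have hsj : ∀ j, w a ≤ j → j < p → sg w j = 1 := by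
      intro j h1 h2
      rw [← hsv]
      apply sg_extend _ _ _ h1
      intro l h4 h5
      rw [hfixp l h4 (by omega)]
      omega
    have hout := hw.outside hn (p - 1) p (by omega) (hgj (p - 1) (by omega) (by omega)) (by omega)
      hp2
    have hle := hlast p (by omega) hp2
    let w₂ : ℤ → ℤ := fun x => if x = a then w p else if x = p then w a else w x
    have f1 : w₂ a = w p := if_pos rfl
    have f2 : w₂ p = w a := by
      simp only [w₂]
      rw [if_neg (by omega), if_pos trivial]
    have f3 : ∀ x, x ≠ a → x ≠ p → w₂ x = w x := fun x h1 h2 => by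
      simp only [w₂]
      rw [if_neg h1, if_neg h2]
    have q0 := absd (w p)
    have hT := tvd_two (n := n) w w₂ a p (by omega) (mem_Icc.2 ⟨ha, han⟩)
      (mem_Icc.2 ⟨by omega, hp2⟩) (fun x _ => f3 x)
    have hG := GS_diff (n := n) w w₂ a p (w a) ha (by omega) (by omega) hp2
      (fun j h1 h2 h3 => by
        rcases h3 with h3 | h3
        · exact OG_congr _ _ j fun x hx => by
            rw [mem_Icc] at hx
            exact (f3 x (by omega) (by omega)).symm
        · exact OG_swap _ _ a p j (by omega) (mem_Icc.2 ⟨ha, by omega⟩)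
            (mem_Icc.2 ⟨by omega, h3⟩) (fun x _ => f3 x) (hw.ne_zero hn a ha han)
            (hw.ne_zero hn p (by omega) hp2) (Or.inl ⟨f1, f2⟩))
      (fun j h1 h2 h3 => by
        have h4 := h3.1 a (mem_Icc.2 ⟨ha, h1⟩)
        rw [f1] at h4
        omega)
      (fun j h1 h2 h3 => by
        have h4 := h3.1 a (mem_Icc.2 ⟨ha, h1⟩)
        have h5 := absd (w a)
        omega)
      (fun j h1 h2 => ⟨hgj j h1 h2, hsj j h1 h2⟩)
    have q1 := absd (w a - a)
    have q2 := absd (w p - p)
    have q3 := absd (w p - a)
    have q4 := absd (w a - p)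
    apply stepA hn hpar a p ha (by omega) hp2 w₂ f1 f2 (fun x _ => f3 x)
    rw [f1, f2] at hT
    omega

/-- There is no excedance in the window. -/
lemma case_noexc (hn : 1 ≤ n) (hw : Aff n w) (hpar : par n w = 0) (hne : w ≠ 1)
    (hle : ∀ i, 1 ≤ i → i ≤ n → w i ≤ i) : Step n w := by
  have hexp : ∃ p, 0 < p ∧ p ≤ n ∧ w p < 0 := by
    by_contra hcon
    push Not at hcon
    apply hne
    apply eq_one_of_fix hn hw
    intro i h1 h2
    exact fix_interval 0 n (fun i h3 h4 => ⟨hle i h3 h4, by
      have h5 := hcon i h3 h4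
      have h6 := hw.ne_zero' i h3
      omega⟩) i h1 h2
  obtain ⟨p, hp1, hp2, hp3, hp4⟩ := exists_least _ 0 n hexp
  have hfix : ∀ i, 0 < i → i < p → w i = i := by
    intro i h1 h2
    exact fix_interval 0 (p - 1) (fun i h3 h4 => ⟨hle i h3 (by omega), by
      have h5 := hp4 i h3 (by omega)
      have h6 := hw.ne_zero' i h3
      omega⟩) i h1 (by omega)
  have hlarge : ∀ i, p ≤ i → p ≤ |w i| := by
    intro i h1
    by_contra hcon
    push Not at hcon
    have h2 := Int.one_le_abs (hw.ne_zero' i (by omega))
    have h3 := hfix |w i| (by omega) hcon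
    have h4 := hw.abs_inj i |w i| (by omega) (by omega) (by rw [h3, abs_abs])
    omega
  have hP := hlarge p le_rfl
  rw [abs_of_neg hp3] at hP
  have hsp : sg w p = 1 := by
    rw [sg_succ w p (by omega), if_pos hp3, sg_nonneg w (p - 1) (by omega) (fun l h1 h2 => by
      rw [hfix l h1 (by omega)]
      omega), zero_add]
  by_cases hq : ∃ q, p < q ∧ q ≤ n ∧ w q < 0
  · obtain ⟨q, hq1, hq2, hq3, hq4⟩ := exists_least _ p n hq
    have hQ := hlarge q hq1.le
    rw [abs_of_neg hq3] at hQ
    have hpos : ∀ i, p < i → i < q → 0 ≤ w i := fun i h1 h2 => by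
      have := hq4 i h1 h2
      omega
    let w₂ : ℤ → ℤ := fun x => if x = p then -w q else if x = q then -w p else w x
    have f1 : w₂ p = -w q := if_pos rfl
    have f2 : w₂ q = -w p := by
      simp only [w₂]
      rw [if_neg (by omega), if_pos trivial]
    have f3 : ∀ x, x ≠ p → x ≠ q → w₂ x = w x := fun x h1 h2 => by
      simp only [w₂]
      rw [if_neg h1, if_neg h2]
    have hT := tvd_two (n := n) w w₂ p q (by omega) (mem_Icc.2 ⟨by omega, hp2⟩)
      (mem_Icc.2 ⟨by omega, hq2⟩) (fun x _ => f3 x)
    have hG1 : ∀ j, 1 ≤ j → j ≤ n - 1 → (j < p ∨ q ≤ j) → (OG w j ↔ OG w₂ j) := by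
      intro j h1 h2 h3
      rcases h3 with h3 | h3
      · exact OG_congr _ _ j fun x hx => by
          rw [mem_Icc] at hx
          exact (f3 x (by omega) (by omega)).symm
      · exact OG_swap _ _ p q j (by omega) (mem_Icc.2 ⟨by omega, by omega⟩)
          (mem_Icc.2 ⟨by omega, h3⟩) (fun x _ => f3 x) (hw.ne_zero hn p (by omega) hp2)
          (hw.ne_zero hn q (by omega) hq2) (Or.inr ⟨f1, f2⟩)
    have q1 := absd (w p - p)
    have q2 := absd (w q - q)
    have q3 := absd (-w q - p)
    have q4 := absd (-w p - q)
    by_cases hPq : q ≤ -w p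
    · have hG := GS_diff (n := n) w w₂ p q q (by omega) (by omega) le_rfl hq2 hG1
        (fun j h1 h2 h3 => by
          have h4 := sg_nonneg w₂ j (by omega) (fun l h5 h6 => by
            rcases lt_trichotomy l p with h7 | h7 | h7
            · rw [f3 l (by omega) (by omega), hfix l h5 h7]
              omega
            · rw [h7, f1]
              omega
            · rw [f3 l (by omega) (by omega)]
              exact hpos l h7 (by omega))
          rw [h3.2] at h4
          revert h4
          decide)
        (fun j h1 h2 h3 => by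
          have h4 := h3.1 p (mem_Icc.2 ⟨by omega, h1⟩)
          rw [abs_of_neg hp3] at h4
          omega)
        (fun j h1 h2 => by omega)
      apply stepB hn hw hpar p q (by omega) hq1 hq2 w₂ f1 f2 (fun x _ => f3 x)
      rw [f1, f2] at hT
      omega
    · push Not at hPq
      -- the closed odd block
      have hgP : ∀ i, 1 ≤ i → i ≤ -w p → |w i| ≤ -w p := by
        intro i h1 h2
        rcases lt_trichotomy i p with h3 | h3 | h3
        · rw [hfix i (by omega) h3, abs_of_nonneg (by omega)]
          exact h2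
        · rw [h3, abs_of_neg hp3]
        · rw [abs_of_nonneg (hpos i h3 (by omega))]
          have := hle i h1 (by omega)
          omega
      have hfixq : ∀ i, -w p < i → i < q → w i = i := by
        intro i h1 h2
        exact fix_interval (-w p) (q - 1) (fun i h3 h4 => ⟨hle i (by omega) (by omega), by
          have h5 := hw.outside hn (-w p) i (by omega) (fun x hx => by
            rw [mem_Icc] at hx
            exact hgP x hx.1 hx.2) h3 (by omega)
          rw [abs_of_nonneg (hpos i (by omega) (by omega))] at h5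
          exact h5⟩) i h1 (by omega)
      have hgj : ∀ j, -w p ≤ j → j < q → Good w j := by
        intro j h1 h2 i hi
        rw [mem_Icc] at hi
        by_cases h3 : i ≤ -w p
        · have h4 := hgP i hi.1 h3
          omega
        · rw [hfixq i (by omega) (by omega), abs_of_nonneg (by omega)]
          exact hi.2
      have hsj : ∀ j, -w p ≤ j → j < q → sg w j = 1 := by
        intro j h1 h2
        rw [← hsp]
        apply sg_extend _ _ _ (by omega)
        intro l h4 h5
        exact hpos l h4 (by omega)
      have hout := hw.outside hn (q - 1) q (by omega) (hgj (q - 1) (by omega) (by omega))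
        (by omega) hq2
      rw [abs_of_neg hq3] at hout
      have hG := GS_diff (n := n) w w₂ p q (-w p) (by omega) (by omega) (by omega) hq2 hG1
        (fun j h1 h2 h3 => by
          have h4 := h3.1 p (mem_Icc.2 ⟨by omega, h1⟩)
          rw [f1, abs_of_nonneg (by omega)] at h4
          omega)
        (fun j h1 h2 h3 => by
          have h4 := h3.1 p (mem_Icc.2 ⟨by omega, h1⟩)
          rw [abs_of_neg hp3] at h4
          omega)
        (fun j h1 h2 => ⟨hgj j h1 h2, hsj j h1 h2⟩)
      apply stepB hn hw hpar p q (by omega) hq1 hq2 w₂ f1 f2 (fun x _ => f3 x)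
      rw [f1, f2] at hT
      omega
  · -- exactly one negative place
    push Not at hq
    have hPN : 2 * n + 2 < -w p := by
      by_contra hcon
      push Not at hcon
      have h1 : ∀ i ∈ Icc 1 n, -(2 * n + 2) ≤ w i ∧ w i < 2 * n + 2 := by
        intro i hi
        rw [mem_Icc] at hi
        rcases lt_trichotomy i p with h2 | h2 | h2
        · rw [hfix i (by omega) h2]
          omega
        · rw [h2]
          omega
        · have h4 := hq i h2 hi.2
          have h5 := hle i hi.1 hi.2
          omega
      have h2 := par_eq_sg (n := n) w h1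
      have h3 : sg w n = 1 := by
        rw [← hsp]
        exact sg_extend _ _ _ hp2 (fun l h4 h5 => hq l h4 h5)
      rw [hpar, h3] at h2
      revert h2
      decide
    have hP' : p ≤ -w p - (2 * n + 2) := by
      have h1 := hlarge (p + (2 * n + 2)) (by omega)
      rw [hw.per, abs_of_neg (by omega)] at h1
      omega
    let w₂ : ℤ → ℤ := fun x => if x = p then -(2 * n + 2) - w p else w x
    have f1 : w₂ p = -(2 * n + 2) - w p := if_pos rfl
    have f3 : ∀ x, x ≠ p → w₂ x = w x := fun x hx => if_neg hx
    have hT := tvd_one (n := n) w w₂ p (mem_Icc.2 ⟨by omega, hp2⟩) (fun x _ => f3 x)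
    have hG := GS_diff (n := n) w w₂ p n n (by omega) hp2 le_rfl le_rfl
      (fun j h1 h2 h3 => OG_congr _ _ j fun i hi => by
        rw [mem_Icc] at hi
        exact (f3 i (by omega)).symm)
      (fun j h1 h2 h3 => by
        have h4 := sg_nonneg w₂ j (by omega) (fun l h5 h6 => by
          rcases lt_trichotomy l p with h7 | h7 | h7
          · rw [f3 l (by omega), hfix l h5 h7]
            omega
          · rw [h7, f1]
            omega
          · rw [f3 l (by omega)]
            exact hq l h7 (by omega))
        rw [h3.2] at h4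
        revert h4
        decide)
      (fun j h1 h2 h3 => by
        have h4 := h3.1 p (mem_Icc.2 ⟨by omega, h1⟩)
        rw [abs_of_neg hp3] at h4
        omega)
      (fun j h1 h2 => by omega)
    have q1 := absd (w p - p)
    have q2 := absd (-(2 * n + 2) - w p - p)
    apply stepD hn hw hpar p (by omega) hp2 w₂ f1 (fun x _ => f3 x)
    rw [f1] at hT
    omega

/-- The descent step. -/
theorem step (hn : 1 ≤ n) (hw : Aff n w) (hpar : par n w = 0) (hne : w ≠ 1) : Step n w := by
  by_cases hE : ∃ a, 0 < a ∧ a ≤ n ∧ a < w a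
  · obtain ⟨a, ha1, ha2, ha3, ha4⟩ := exists_greatest _ 0 n hE
    have hlast : ∀ i, a < i → i ≤ n → w i ≤ i := by
      intro i h1 h2
      have := ha4 i h1 h2
      omega
    by_cases hF : ∃ i, a < i ∧ i ≤ n ∧ w i ≠ i
    · obtain ⟨b, hb1, hb2, hb3, hb4⟩ := exists_least _ a n hF
      exact case_exc hn hw hpar a ha1 ha2 ha3 hlast b hb1 hb2 hb3 (fun i h1 h2 => by
        by_contra h3
        exact hb4 i h1 h2 h3)
    · push Not at hF
      exact case_fixed hn hw hpar a ha1 ha2 ha3 hF
  · push Not at hE
    exact case_noexc hn hw hpar hne hE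

end

end Pool.Agent.Q285.AC
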