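import Pool.Agent.Q285.AC.Basic

/-!
# Transpositions
-/

namespace Pool.Agent.Q285.AC

open Finset

/-- The transposition which exchanges the orbits of `a` and `b`. -/
def sw (n a b x : ℤ) : ℤ :=
  if (2 * n + 2) ∣ x - a then x - a + b
  else if (2 * n + 2) ∣ x - b then x - b + a
  else if (2 * n + 2) ∣ x + a then x + a - b
  else if (2 * n + 2) ∣ x + b then x + b - a
  else x

/-- The pair can be exchanged. -/
structure OK (n a b : ℤ) : Prop where
  h1 : ¬ (2 * n + 2) ∣ b - a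
  h2 : ¬ (2 * n + 2) ∣ 2 * a
  h3 : ¬ (2 * n + 2) ∣ 2 * b

section

variable {n a b : ℤ} (H : OK n a b)

lemma sw_a (x : ℤ) (h : (2 * n + 2) ∣ x - a) : sw n a b x = x - a + b := if_pos h

include H

lemma OK.h1' : ¬ (2 * n + 2) ∣ a - b := fun h => H.h1 (by rw [← neg_sub]; exact h.neg_right)

lemma sw_b (x : ℤ) (h : (2 * n + 2) ∣ x - b) : sw n a b x = x - b + a := by
  unfold sw
  rw [if_neg, if_pos h]
  intro h'
  exact H.h1 (by simpa using h'.sub h)

lemma sw_na (x : ℤ) (h : (2 * n + 2) ∣ x + a) : sw n a b x = x + a - b := by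
  unfold sw
  rw [if_neg]
  · split_ifs
    · ring
    · rfl
  · intro h'
    exact H.h2 (by
      have := h.sub h'
      rwa [show x + a - (x - a) = 2 * a by ring] at this)

lemma sw_nb (x : ℤ) (h : (2 * n + 2) ∣ x + b) : sw n a b x = x + b - a := by
  unfold sw
  split_ifs with c1 c2 c3
  · ring
  · exact absurd (by
      have := h.sub c2
      rwa [show x + b - (x - b) = 2 * b by ring] at this) H.h3
  · exact absurd (by
      have := h.sub c3
      rwa [show x + b - (x + a) = b - a by ring] at this) H.h1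
  · rfl

omit H in
lemma sw_fix (x : ℤ) (c1 : ¬ (2 * n + 2) ∣ x - a) (c2 : ¬ (2 * n + 2) ∣ x - b)
    (c3 : ¬ (2 * n + 2) ∣ x + a) (c4 : ¬ (2 * n + 2) ∣ x + b) : sw n a b x = x := by
  unfold sw
  rw [if_neg c1, if_neg c2, if_neg c3, if_neg c4]

lemma sw_invol : Function.Involutive (sw n a b) := by
  intro x
  by_cases c1 : (2 * n + 2) ∣ x - a
  · rw [sw_a x c1, sw_b H _ (by simpa using c1)]
    ring
  by_cases c2 : (2 * n + 2) ∣ x - b
  · rw [sw_b H x c2, sw_a _ (by simpa using c2)]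
    ring
  by_cases c3 : (2 * n + 2) ∣ x + a
  · rw [sw_na H x c3, sw_nb H _ (by simpa using c3)]
    ring
  by_cases c4 : (2 * n + 2) ∣ x + b
  · rw [sw_nb H x c4, sw_na H _ (by simpa using c4)]
    ring
  · rw [sw_fix x c1 c2 c3 c4, sw_fix x c1 c2 c3 c4]

/-- The transposition as a permutation. -/
def swp : Equiv.Perm ℤ := Function.Involutive.toPerm (sw n a b) (sw_invol H)

lemma swp_apply (x : ℤ) : swp H x = sw n a b x := rfl

lemma swp_mul_self : swp H * swp H = 1 := by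
  ext x
  exact sw_invol H x

lemma aff_swp : Aff n (swp H) := by
  constructor
  · intro x
    rw [swp_apply, swp_apply]
    by_cases c1 : (2 * n + 2) ∣ x - a
    · rw [sw_a x c1, sw_na H (-x) (by rw [show -x + a = -(x - a) by ring]; exact c1.neg_right)]
      ring
    by_cases c2 : (2 * n + 2) ∣ x - b
    · rw [sw_b H x c2, sw_nb H (-x) (by rw [show -x + b = -(x - b) by ring]; exact c2.neg_right)]
      ring
    by_cases c3 : (2 * n + 2) ∣ x + a
    · rw [sw_na H x c3, sw_a (-x) (by rw [show -x - a = -(x + a) by ring]; exact c3.neg_right)]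
      ring
    by_cases c4 : (2 * n + 2) ∣ x + b
    · rw [sw_nb H x c4, sw_b H (-x) (by rw [show -x - b = -(x + b) by ring]; exact c4.neg_right)]
      ring
    · have key : ∀ y : ℤ, ¬ (2 * n + 2) ∣ y → ∀ z, z = -y → ¬ (2 * n + 2) ∣ z := by
        rintro y hy z rfl h
        exact hy (by simpa using h.neg_right)
      rw [sw_fix x c1 c2 c3 c4, sw_fix (-x) (key _ c3 _ (by ring)) (key _ c4 _ (by ring))
        (key _ c1 _ (by ring)) (key _ c2 _ (by ring))]
  · intro x
    rw [swp_apply, swp_apply]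
    have key : ∀ y z : ℤ, z = y + (2 * n + 2) → ((2 * n + 2) ∣ z ↔ (2 * n + 2) ∣ y) := by
      rintro y z rfl
      exact dvd_add_self_right
    by_cases c1 : (2 * n + 2) ∣ x - a
    · rw [sw_a x c1, sw_a _ ((key (x - a) _ (by ring)).2 c1)]
      ring
    by_cases c2 : (2 * n + 2) ∣ x - b
    · rw [sw_b H x c2, sw_b H _ ((key (x - b) _ (by ring)).2 c2)]
      ring
    by_cases c3 : (2 * n + 2) ∣ x + a
    · rw [sw_na H x c3, sw_na H _ ((key (x + a) _ (by ring)).2 c3)]
      ring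
    by_cases c4 : (2 * n + 2) ∣ x + b
    · rw [sw_nb H x c4, sw_nb H _ ((key (x + b) _ (by ring)).2 c4)]
      ring
    · rw [sw_fix x c1 c2 c3 c4, sw_fix _ (fun h => c1 ((key (x - a) _ (by ring)).1 h))
        (fun h => c2 ((key (x - b) _ (by ring)).1 h))
        (fun h => c3 ((key (x + a) _ (by ring)).1 h))
        (fun h => c4 ((key (x + b) _ (by ring)).1 h))]

end

/-- `t` exchanges the orbits of `i` and `j` and fixes all other integers. -/
def IsTransposition (n i j : ℤ) (t : Equiv.Perm ℤ) : Prop :=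
  (∀ k, t (i + k * (2 * n + 2)) = j + k * (2 * n + 2) ∧
    t (j + k * (2 * n + 2)) = i + k * (2 * n + 2) ∧
    t (-i + k * (2 * n + 2)) = -j + k * (2 * n + 2) ∧
    t (-j + k * (2 * n + 2)) = -i + k * (2 * n + 2)) ∧
  ∀ x, (∀ k, x ≠ i + k * (2 * n + 2) ∧ x ≠ j + k * (2 * n + 2) ∧ x ≠ -i + k * (2 * n + 2) ∧
    x ≠ -j + k * (2 * n + 2)) → t x = x

lemma isTransposition_swp {n a b : ℤ} (H : OK n a b) : IsTransposition n a b (swp H) := by
  constructor
  · intro k
    refine ⟨?_, ?_, ?_, ?_⟩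
    · rw [swp_apply, sw_a _ ⟨k, by ring⟩]
      ring
    · rw [swp_apply, sw_b H _ ⟨k, by ring⟩]
      ring
    · rw [swp_apply, sw_na H _ ⟨k, by ring⟩]
      ring
    · rw [swp_apply, sw_nb H _ ⟨k, by ring⟩]
      ring
  · intro x hx
    rw [swp_apply]
    apply sw_fix
    · rintro ⟨k, hk⟩
      exact (hx k).1 (by linear_combination hk)
    · rintro ⟨k, hk⟩
      exact (hx k).2.1 (by linear_combination hk)
    · rintro ⟨k, hk⟩
      exact (hx k).2.2.1 (by linear_combination hk)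
    · rintro ⟨k, hk⟩
      exact (hx k).2.2.2 (by linear_combination hk)

/-- Divisibility by the period for small numbers. -/
lemma not_dvd_small {n x : ℤ} (h1 : x ≠ 0) (h2 : |x| < 2 * n + 2) : ¬ (2 * n + 2) ∣ x :=
  fun h => h1 (Int.eq_zero_of_abs_lt_dvd h h2)

lemma abs_lt_of {n x : ℤ} (h1 : -(2 * n + 2) < x) (h2 : x < 2 * n + 2) : |x| < 2 * n + 2 :=
  abs_lt.2 ⟨h1, h2⟩

lemma okA {n a b : ℤ} (ha : 1 ≤ a) (ha' : a ≤ n) (hb : 1 ≤ b) (hb' : b ≤ n) (hab : a ≠ b) :
    OK n a b :=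
  ⟨not_dvd_small (by omega) (abs_lt_of (by omega) (by omega)),
    not_dvd_small (by omega) (abs_lt_of (by omega) (by omega)),
    not_dvd_small (by omega) (abs_lt_of (by omega) (by omega))⟩

lemma okB {n a b : ℤ} (ha : 1 ≤ a) (ha' : a ≤ n) (hb : 1 ≤ b) (hb' : b ≤ n) :
    OK n a (-b) :=
  ⟨not_dvd_small (by omega) (abs_lt_of (by omega) (by omega)),
    not_dvd_small (by omega) (abs_lt_of (by omega) (by omega)),
    not_dvd_small (by omega) (abs_lt_of (by omega) (by omega))⟩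

lemma okC {n a : ℤ} (ha : 1 ≤ a) (ha' : a ≤ n) : OK n a (2 * n + 2 - a) :=
  ⟨not_dvd_small (by omega) (abs_lt_of (by omega) (by omega)),
    not_dvd_small (by omega) (abs_lt_of (by omega) (by omega)), by
    intro h
    have h1 : (2 * n + 2) ∣ 2 * (2 * n + 2) - 2 * (2 * n + 2 - a) := (dvd_mul_left _ _).sub h
    rw [show 2 * (2 * n + 2) - 2 * (2 * n + 2 - a) = 2 * a by ring] at h1
    exact not_dvd_small (by omega) (abs_lt_of (by omega) (by omega)) h1⟩

lemma okD {n a : ℤ} (ha : 1 ≤ a) (ha' : a ≤ n) : OK n a (-(2 * n + 2) - a) :=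
  ⟨by
    intro h
    have h1 : (2 * n + 2) ∣ -(2 * n + 2) - (-(2 * n + 2) - a - a) := (dvd_refl _).neg_right.sub h
    rw [show -(2 * n + 2) - (-(2 * n + 2) - a - a) = 2 * a by ring] at h1
    exact not_dvd_small (by omega) (abs_lt_of (by omega) (by omega)) h1,
    not_dvd_small (by omega) (abs_lt_of (by omega) (by omega)), by
    intro h
    have h1 : (2 * n + 2) ∣ 2 * (-(2 * n + 2)) - 2 * (-(2 * n + 2) - a) :=
      ((dvd_refl _).neg_right.mul_left _).sub h
    rw [show 2 * (-(2 * n + 2)) - 2 * (-(2 * n + 2) - a) = 2 * a by ring] at h1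
    exact not_dvd_small (by omega) (abs_lt_of (by omega) (by omega)) h1⟩

/-! ### Changes at one or two places of the window -/

lemma tvd_two {n : ℤ} (u u' : ℤ → ℤ) (a b : ℤ) (hab : a ≠ b) (ha : a ∈ Icc 1 n)
    (hb : b ∈ Icc 1 n) (h : ∀ i ∈ Icc 1 n, i ≠ a → i ≠ b → u' i = u i) :
    tvd n u - tvd n u' = |u a - a| + |u b - b| - |u' a - a| - |u' b - b| := by
  unfold tvd
  rw [← sum_sub_distrib, sum_eq_add a b hab]
  · ring
  · intro c hc hne
    rw [h c hc hne.1 hne.2]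
    ring
  · intro h'
    exact absurd ha h'
  · intro h'
    exact absurd hb h'

lemma tvd_one {n : ℤ} (u u' : ℤ → ℤ) (a : ℤ) (ha : a ∈ Icc 1 n)
    (h : ∀ i ∈ Icc 1 n, i ≠ a → u' i = u i) :
    tvd n u - tvd n u' = |u a - a| - |u' a - a| := by
  unfold tvd
  rw [← sum_sub_distrib, sum_eq_single a]
  · intro c hc hne
    rw [h c hc hne]
    ring
  · intro h'
    exact absurd ha h'

lemma par_two {n : ℤ} (u u' : ℤ → ℤ) (a b : ℤ) (hab : a ≠ b) (ha : a ∈ Icc 1 n)
    (hb : b ∈ Icc 1 n) (h : ∀ i ∈ Icc 1 n, i ≠ a → i ≠ b → u' i = u i) :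
    par n u - par n u' = ((u a / (2 * n + 2) + u b / (2 * n + 2) - u' a / (2 * n + 2) -
      u' b / (2 * n + 2) : ℤ) : ZMod 2) := by
  unfold par
  rw [← sum_sub_distrib, sum_eq_add a b hab]
  · push_cast
    ring
  · intro c hc hne
    rw [h c hc hne.1 hne.2]
    ring
  · intro h'
    exact absurd ha h'
  · intro h'
    exact absurd hb h'

lemma par_one {n : ℤ} (u u' : ℤ → ℤ) (a : ℤ) (ha : a ∈ Icc 1 n)
    (h : ∀ i ∈ Icc 1 n, i ≠ a → u' i = u i) :
    par n u - par n u' = ((u a / (2 * n + 2) - u' a / (2 * n + 2) : ℤ) : ZMod 2) := by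
  unfold par
  rw [← sum_sub_distrib, sum_eq_single a]
  · push_cast
    ring
  · intro c hc hne
    rw [h c hc hne]
    ring
  · intro h'
    exact absurd ha h'

lemma sg_two (u u' : ℤ → ℤ) (a b j : ℤ) (hab : a ≠ b) (ha : a ∈ Icc 1 j)
    (hb : b ∈ Icc 1 j) (h : ∀ i ∈ Icc 1 j, i ≠ a → i ≠ b → u' i = u i) :
    sg u j - sg u' j = (if u a < 0 then 1 else 0) + (if u b < 0 then 1 else 0) -
      (if u' a < 0 then 1 else 0) - (if u' b < 0 then 1 else 0) := by
  unfold sg
  rw [← sum_sub_distrib, sum_eq_add a b hab]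
  · ring
  · intro c hc hne
    rw [h c hc hne.1 hne.2]
    ring
  · intro h'
    exact absurd ha h'
  · intro h'
    exact absurd hb h'

lemma sg_one (u u' : ℤ → ℤ) (a j : ℤ) (ha : a ∈ Icc 1 j)
    (h : ∀ i ∈ Icc 1 j, i ≠ a → u' i = u i) :
    sg u j - sg u' j = (if u a < 0 then 1 else 0) - (if u' a < 0 then 1 else 0) := by
  unfold sg
  rw [← sum_sub_distrib, sum_eq_single a]
  · intro c hc hne
    rw [h c hc hne]
    ring
  · intro h'
    exact absurd ha h'

/-- The sign parity does not see places with positive values. -/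
lemma sg_extend (u : ℤ → ℤ) (i j : ℤ) (hij : i ≤ j) (h : ∀ l, i < l → l ≤ j → 0 ≤ u l) :
    sg u j = sg u i := by
  unfold sg
  symm
  apply sum_subset (Icc_subset_Icc le_rfl hij)
  intro l hl hl'
  rw [mem_Icc] at hl hl'
  rw [if_neg]
  have := h l (by omega) hl.2
  omega

lemma sg_congr (u u' : ℤ → ℤ) (j : ℤ) (h : ∀ i ∈ Icc 1 j, u i = u' i) : sg u j = sg u' j := by
  unfold sg
  exact sum_congr rfl fun i hi => by rw [h i hi]

lemma OG_congr (u u' : ℤ → ℤ) (j : ℤ) (h : ∀ i ∈ Icc 1 j, u i = u' i) : OG u j ↔ OG u' j := by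
  unfold OG Good
  rw [sg_congr u u' j h]
  constructor
  · rintro ⟨h1, h2⟩
    exact ⟨fun i hi => by rw [← h i hi]; exact h1 i hi, h2⟩
  · rintro ⟨h1, h2⟩
    exact ⟨fun i hi => by rw [h i hi]; exact h1 i hi, h2⟩

/-- Exchanging two values, possibly with both signs changed. -/
lemma OG_swap (u u' : ℤ → ℤ) (a b j : ℤ) (hab : a ≠ b) (ha : a ∈ Icc 1 j)
    (hb : b ∈ Icc 1 j) (h : ∀ i ∈ Icc 1 j, i ≠ a → i ≠ b → u' i = u i) (h0 : u a ≠ 0)
    (h0' : u b ≠ 0)
    (hs : (u' a = u b ∧ u' b = u a) ∨ (u' a = -u b ∧ u' b = -u a)) : OG u j ↔ OG u' j := by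
  have h1 := sg_two u u' a b j hab ha hb h
  have h2 : sg u j = sg u' j := by
    rw [← sub_eq_zero, h1]
    rcases hs with ⟨h3, h4⟩ | ⟨h3, h4⟩ <;> rw [h3, h4]
    · ring
    · by_cases c1 : u a < 0 <;> by_cases c2 : u b < 0
      · rw [if_pos c1, if_pos c2, if_neg (by omega), if_neg (by omega)]; decide
      · rw [if_pos c1, if_neg c2, if_pos (by omega), if_neg (by omega)]; decide
      · rw [if_neg c1, if_pos c2, if_neg (by omega), if_pos (by omega)]; decide
      · rw [if_neg c1, if_neg c2, if_pos (by omega), if_pos (by omega)]; decide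
  have h5 : |u' a| = |u b| := by
    rcases hs with ⟨h3, -⟩ | ⟨h3, -⟩ <;> rw [h3]
    exact abs_neg _
  have h6 : |u' b| = |u a| := by
    rcases hs with ⟨-, h3⟩ | ⟨-, h3⟩ <;> rw [h3]
    exact abs_neg _
  unfold OG Good
  rw [h2]
  constructor
  · rintro ⟨h3, h4⟩
    refine ⟨fun i hi => ?_, h4⟩
    by_cases c1 : i = a
    · rw [c1, h5]; exact h3 b hb
    by_cases c2 : i = b
    · rw [c2, h6]; exact h3 a ha
    · rw [h i hi c1 c2]; exact h3 i hi
  · rintro ⟨h3, h4⟩
    refine ⟨fun i hi => ?_, h4⟩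
    by_cases c1 : i = a
    · rw [c1, ← h6]; exact h3 b hb
    by_cases c2 : i = b
    · rw [c2, ← h5]; exact h3 a ha
    · rw [← h i hi c1 c2]; exact h3 i hi

end Pool.Agent.Q285.AC
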