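import Pool.Agent.Q285.AC.Lower

/-!
# The upper bound
-/

namespace Pool.Agent.Q285.AC

open Finset

lemma OK.not_both {n a b : ℤ} (H : OK n a b) : a ≠ b := fun h => H.h1 (by rw [h]; simp)

/-- The conclusion of the descent step. -/
def Step (n : ℤ) (w : Equiv.Perm ℤ) : Prop :=
  ∃ (a b : ℤ) (H : OK n a b), a ≠ b ∧ par n (swp H) = 0 ∧ par n (w * swp H : Equiv.Perm ℤ) = 0 ∧
    0 < tvd n (swp H) ∧ tvd n (w * swp H : Equiv.Perm ℤ) +
      2 * (GS n (w * swp H : Equiv.Perm ℤ)).card + tvd n (swp H) = tvd n w + 2 * (GS n w).card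

lemma par_id {n : ℤ} (hn : 1 ≤ n) : par n (fun x => x) = 0 := by
  unfold par
  apply sum_eq_zero
  intro x hx
  rw [mem_Icc] at hx
  rw [div_zero_of x (by omega) (by omega)]
  rfl

lemma par_eq_sg {n : ℤ} (u : ℤ → ℤ)
    (h : ∀ i ∈ Icc 1 n, -(2 * n + 2) ≤ u i ∧ u i < 2 * n + 2) : par n u = sg u n := by
  unfold par sg
  apply sum_congr rfl
  intro i hi
  obtain ⟨h1, h2⟩ := h i hi
  split_ifs with h3
  · rw [div_neg_one_of _ h3 h1]
    decide
  · rw [div_zero_of _ (by omega) h2]
    rfl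

lemma sg_succ (u : ℤ → ℤ) (j : ℤ) (hj : 1 ≤ j) :
    sg u j = sg u (j - 1) + if u j < 0 then 1 else 0 := by
  unfold sg
  have h : Icc 1 j = insert j (Icc 1 (j - 1)) := by
    ext x
    simp only [mem_insert, mem_Icc]
    omega
  rw [h, sum_insert (by simp), add_comm]

lemma sg_zero (u : ℤ → ℤ) : sg u 0 = 0 := by
  unfold sg
  rw [Icc_eq_empty (by norm_num)]
  rfl

/-- Comparing the odd good places. -/
lemma GS_diff {n : ℤ} (w w' : ℤ → ℤ) (a b v : ℤ) (ha : 1 ≤ a) (hav : a ≤ v) (hvb : v ≤ b)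
    (hb : b ≤ n) (h1 : ∀ j, 1 ≤ j → j ≤ n - 1 → (j < a ∨ b ≤ j) → (OG w j ↔ OG w' j))
    (h2 : ∀ j, a ≤ j → j < b → ¬ OG w' j) (h3 : ∀ j, a ≤ j → j < v → ¬ OG w j)
    (h4 : ∀ j, v ≤ j → j < b → OG w j) :
    ((GS n w).card : ℤ) = (GS n w').card + (b - v) := by
  have h5 : GS n w = GS n w' ∪ Icc v (b - 1) := by
    ext j
    rw [mem_union, mem_GS, mem_GS, mem_Icc]
    constructor
    · rintro ⟨h6, h7⟩
      by_cases h8 : j < a ∨ b ≤ j
      · exact Or.inl ⟨h6, (h1 j h6.1 h6.2 h8).1 h7⟩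
      · right
        by_contra h9
        exact h3 j (by omega) (by omega) h7
    · rintro (⟨h6, h7⟩ | h6)
      · by_cases h8 : j < a ∨ b ≤ j
        · exact ⟨h6, (h1 j h6.1 h6.2 h8).2 h7⟩
        · exact absurd h7 (h2 j (by omega) (by omega))
      · exact ⟨by omega, h4 j (by omega) (by omega)⟩
  have h6 : Disjoint (GS n w') (Icc v (b - 1)) := by
    rw [disjoint_left]
    intro j hj hj'
    rw [mem_Icc] at hj'
    exact h2 j (by omega) (by omega) (mem_GS.1 hj).2
  rw [h5, card_union_of_disjoint h6, Int.card_Icc]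
  push_cast
  omega

section Types

variable {n : ℤ} (hn : 1 ≤ n) {w : Equiv.Perm ℤ} (hw : Aff n w) (hpar : par n w = 0)

include hn hw hpar

omit hw in
/-- Type A. -/
lemma stepA (a b : ℤ) (ha : 1 ≤ a) (hab : a < b) (hb : b ≤ n) (w' : ℤ → ℤ)
    (e1 : w' a = w b) (e2 : w' b = w a) (e3 : ∀ x ∈ Icc 1 n, x ≠ a → x ≠ b → w' x = w x)
    (h : tvd n w' + 2 * (GS n w').card + 2 * (b - a) = tvd n w + 2 * (GS n w).card) :
    Step n w := by
  have haI : a ∈ Icc 1 n := mem_Icc.2 ⟨ha, by omega⟩
  have hbI : b ∈ Icc 1 n := mem_Icc.2 ⟨by omega, hb⟩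
  have hab' : a ≠ b := by omega
  let H : OK n a b := okA ha (by omega) (by omega) hb hab'
  have t1 : swp H a = b := by
    rw [swp_apply, sw_a a (by simp)]
    ring
  have t2 : swp H b = a := by
    rw [swp_apply, sw_b H b (by simp)]
    ring
  have t3 : ∀ x ∈ Icc 1 n, x ≠ a → x ≠ b → swp H x = x := by
    intro x hx h1 h2
    rw [mem_Icc] at hx
    rw [swp_apply]
    exact sw_fix x (not_dvd_small (by omega) (abs_lt_of (by omega) (by omega)))
      (not_dvd_small (by omega) (abs_lt_of (by omega) (by omega)))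
      (not_dvd_small (by omega) (abs_lt_of (by omega) (by omega)))
      (not_dvd_small (by omega) (abs_lt_of (by omega) (by omega)))
  have hww : ∀ x ∈ Icc 1 n, (w * swp H : Equiv.Perm ℤ) x = w' x := by
    intro x hx
    rw [Equiv.Perm.mul_apply]
    by_cases c1 : x = a
    · rw [c1, t1, e1]
    by_cases c2 : x = b
    · rw [c2, t2, e2]
    · rw [t3 x hx c1 c2, e3 x hx c1 c2]
  have p1 := par_two (n := n) (swp H) (fun x => x) a b hab' haI hbI
    (fun x hx h1 h2 => (t3 x hx h1 h2).symm)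
  rw [t1, t2, par_id hn, sub_zero] at p1
  have p2 := par_two (n := n) w w' a b hab' haI hbI e3
  rw [e1, e2, hpar] at p2
  have q1 := tvd_two (n := n) (swp H) (fun x => x) a b hab' haI hbI
    (fun x hx h1 h2 => (t3 x hx h1 h2).symm)
  rw [t1, t2, tvd_id] at q1
  simp only [sub_self, abs_zero, sub_zero] at q1
  have q2 := absd (b - a)
  have q3 := absd (a - b)
  have r1 : par n (w * swp H : Equiv.Perm ℤ) = par n w' := by
    unfold par
    exact sum_congr rfl fun x hx => by rw [hww x hx]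
  have r2 : tvd n (w * swp H : Equiv.Perm ℤ) = tvd n w' := by
    unfold tvd
    exact sum_congr rfl fun x hx => by rw [hww x hx]
  have r3 : GS n (w * swp H : Equiv.Perm ℤ) = GS n w' := by
    ext j
    rw [mem_GS, mem_GS]
    refine and_congr_right fun hj => OG_congr _ _ j fun i hi => hww i ?_
    rw [mem_Icc] at hi ⊢
    omega
  refine ⟨a, b, H, hab', ?_, ?_, ?_, ?_⟩
  · rw [p1]
    push_cast
    ring
  · rw [r1]
    have : (0 : ZMod 2) - par n w' = 0 := by
      rw [p2]
      push_cast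
      ring
    simpa using this
  · omega
  · rw [r2, r3]
    omega

/-- Type B. -/
lemma stepB (a b : ℤ) (ha : 1 ≤ a) (hab : a < b) (hb : b ≤ n) (w' : ℤ → ℤ)
    (e1 : w' a = -w b) (e2 : w' b = -w a) (e3 : ∀ x ∈ Icc 1 n, x ≠ a → x ≠ b → w' x = w x)
    (h : tvd n w' + 2 * (GS n w').card + 2 * (a + b) = tvd n w + 2 * (GS n w).card) :
    Step n w := by
  have haI : a ∈ Icc 1 n := mem_Icc.2 ⟨ha, by omega⟩
  have hbI : b ∈ Icc 1 n := mem_Icc.2 ⟨by omega, hb⟩
  have hab' : a ≠ b := by omega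
  let H : OK n a (-b) := okB ha (by omega) (by omega) hb
  have t1 : swp H a = -b := by
    rw [swp_apply, sw_a a (by simp)]
    ring
  have t2 : swp H b = -a := by
    rw [swp_apply, sw_nb H b (by simp)]
    ring
  have t3 : ∀ x ∈ Icc 1 n, x ≠ a → x ≠ b → swp H x = x := by
    intro x hx h1 h2
    rw [mem_Icc] at hx
    rw [swp_apply]
    exact sw_fix x (not_dvd_small (by omega) (abs_lt_of (by omega) (by omega)))
      (not_dvd_small (by omega) (abs_lt_of (by omega) (by omega)))
      (not_dvd_small (by omega) (abs_lt_of (by omega) (by omega)))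
      (not_dvd_small (by omega) (abs_lt_of (by omega) (by omega)))
  have hww : ∀ x ∈ Icc 1 n, (w * swp H : Equiv.Perm ℤ) x = w' x := by
    intro x hx
    rw [Equiv.Perm.mul_apply]
    by_cases c1 : x = a
    · rw [c1, t1, e1, hw.neg]
    by_cases c2 : x = b
    · rw [c2, t2, e2, hw.neg]
    · rw [t3 x hx c1 c2, e3 x hx c1 c2]
  have p1 := par_two (n := n) (swp H) (fun x => x) a b hab' haI hbI
    (fun x hx h1 h2 => (t3 x hx h1 h2).symm)
  rw [t1, t2, par_id hn, sub_zero, div_neg_one_of (-b) (by omega) (by omega),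
    div_neg_one_of (-a) (by omega) (by omega), div_zero_of a (by omega) (by omega),
    div_zero_of b (by omega) (by omega)] at p1
  have p2 := par_two (n := n) w w' a b hab' haI hbI e3
  rw [e1, e2, hpar, neg_div hn _ (hw.not_dvd hn b (by omega) hb),
    neg_div hn _ (hw.not_dvd hn a ha (by omega))] at p2
  have q1 := tvd_two (n := n) (swp H) (fun x => x) a b hab' haI hbI
    (fun x hx h1 h2 => (t3 x hx h1 h2).symm)
  rw [t1, t2, tvd_id] at q1
  simp only [sub_self, abs_zero, sub_zero] at q1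
  have q2 := absd (-b - a)
  have q3 := absd (-a - b)
  have r1 : par n (w * swp H : Equiv.Perm ℤ) = par n w' := by
    unfold par
    exact sum_congr rfl fun x hx => by rw [hww x hx]
  have r2 : tvd n (w * swp H : Equiv.Perm ℤ) = tvd n w' := by
    unfold tvd
    exact sum_congr rfl fun x hx => by rw [hww x hx]
  have r3 : GS n (w * swp H : Equiv.Perm ℤ) = GS n w' := by
    ext j
    rw [mem_GS, mem_GS]
    refine and_congr_right fun hj => OG_congr _ _ j fun i hi => hww i ?_
    rw [mem_Icc] at hi ⊢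
    omega
  refine ⟨a, -b, H, by omega, ?_, ?_, ?_, ?_⟩
  · rw [p1]
    decide
  · rw [r1]
    have : (0 : ZMod 2) - par n w' = 0 := by
      rw [p2]
      push_cast
      generalize ((w a / (2 * n + 2) : ℤ) : ZMod 2) = x
      generalize ((w b / (2 * n + 2) : ℤ) : ZMod 2) = y
      revert x y
      decide
    simpa using this
  · omega
  · rw [r2, r3]
    omega

/-- Type C. -/
lemma stepC (a : ℤ) (ha : 1 ≤ a) (han : a ≤ n) (w' : ℤ → ℤ)
    (e1 : w' a = 2 * n + 2 - w a) (e3 : ∀ x ∈ Icc 1 n, x ≠ a → w' x = w x)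
    (h : tvd n w' + 2 * (GS n w').card + (2 * n + 2 - 2 * a) = tvd n w + 2 * (GS n w).card) :
    Step n w := by
  have haI : a ∈ Icc 1 n := mem_Icc.2 ⟨ha, by omega⟩
  let H : OK n a (2 * n + 2 - a) := okC ha han
  have t1 : swp H a = 2 * n + 2 - a := by
    rw [swp_apply, sw_a a (by simp)]
    ring
  have t3 : ∀ x ∈ Icc 1 n, x ≠ a → swp H x = x := by
    intro x hx h1
    rw [mem_Icc] at hx
    rw [swp_apply]
    exact sw_fix x (not_dvd_small (by omega) (abs_lt_of (by omega) (by omega)))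
      (not_dvd_small (by omega) (abs_lt_of (by omega) (by omega)))
      (not_dvd_small (by omega) (abs_lt_of (by omega) (by omega)))
      (by
        intro h
        have h2 : (2 * n + 2) ∣ x + (2 * n + 2 - a) - (2 * n + 2) := h.sub (dvd_refl _)
        rw [show x + (2 * n + 2 - a) - (2 * n + 2) = x - a by ring] at h2
        exact not_dvd_small (by omega) (abs_lt_of (by omega) (by omega)) h2)
  have hww : ∀ x ∈ Icc 1 n, (w * swp H : Equiv.Perm ℤ) x = w' x := by
    intro x hx
    rw [Equiv.Perm.mul_apply]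
    by_cases c1 : x = a
    · rw [c1, t1, e1, show 2 * n + 2 - a = -a + (2 * n + 2) by ring, hw.per, hw.neg]
      ring
    · rw [t3 x hx c1, e3 x hx c1]
  have p1 := par_one (n := n) (swp H) (fun x => x) a haI
    (fun x hx h1 => (t3 x hx h1).symm)
  rw [t1, par_id hn, sub_zero, div_zero_of (2 * n + 2 - a) (by omega) (by omega),
    div_zero_of a (by omega) (by omega)] at p1
  have p2 := par_one (n := n) w w' a haI e3
  have p3 : (2 * n + 2 - w a) / (2 * n + 2) = -(w a / (2 * n + 2)) := by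
    rw [show 2 * n + 2 - w a = -w a + 1 * (2 * n + 2) by ring,
      Int.add_mul_ediv_right _ _ (by omega), neg_div hn _ (hw.not_dvd hn a ha han)]
    ring
  rw [e1, hpar, p3] at p2
  have q1 := tvd_one (n := n) (swp H) (fun x => x) a haI
    (fun x hx h1 => (t3 x hx h1).symm)
  rw [t1, tvd_id] at q1
  simp only [sub_self, abs_zero, sub_zero] at q1
  have q2 := absd (2 * n + 2 - a - a)
  have r1 : par n (w * swp H : Equiv.Perm ℤ) = par n w' := by
    unfold par
    exact sum_congr rfl fun x hx => by rw [hww x hx]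
  have r2 : tvd n (w * swp H : Equiv.Perm ℤ) = tvd n w' := by
    unfold tvd
    exact sum_congr rfl fun x hx => by rw [hww x hx]
  have r3 : GS n (w * swp H : Equiv.Perm ℤ) = GS n w' := by
    ext j
    rw [mem_GS, mem_GS]
    refine and_congr_right fun hj => OG_congr _ _ j fun i hi => hww i ?_
    rw [mem_Icc] at hi ⊢
    omega
  refine ⟨a, 2 * n + 2 - a, H, by omega, ?_, ?_, ?_, ?_⟩
  · rw [p1]
    decide
  · rw [r1]
    have : (0 : ZMod 2) - par n w' = 0 := by
      rw [p2]
      push_cast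
      generalize ((w a / (2 * n + 2) : ℤ) : ZMod 2) = x
      revert x
      decide
    simpa using this
  · omega
  · rw [r2, r3]
    omega

/-- Type D. -/
lemma stepD (a : ℤ) (ha : 1 ≤ a) (han : a ≤ n) (w' : ℤ → ℤ)
    (e1 : w' a = -(2 * n + 2) - w a) (e3 : ∀ x ∈ Icc 1 n, x ≠ a → w' x = w x)
    (h : tvd n w' + 2 * (GS n w').card + (2 * n + 2 + 2 * a) = tvd n w + 2 * (GS n w).card) :
    Step n w := by
  have haI : a ∈ Icc 1 n := mem_Icc.2 ⟨ha, by omega⟩
  let H : OK n a (-(2 * n + 2) - a) := okD ha han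
  have t1 : swp H a = -(2 * n + 2) - a := by
    rw [swp_apply, sw_a a (by simp)]
    ring
  have t3 : ∀ x ∈ Icc 1 n, x ≠ a → swp H x = x := by
    intro x hx h1
    rw [mem_Icc] at hx
    rw [swp_apply]
    exact sw_fix x (not_dvd_small (by omega) (abs_lt_of (by omega) (by omega)))
      (by
        intro h
        have h2 : (2 * n + 2) ∣ x - (-(2 * n + 2) - a) - (2 * n + 2) := h.sub (dvd_refl _)
        rw [show x - (-(2 * n + 2) - a) - (2 * n + 2) = x + a by ring] at h2
        exact not_dvd_small (by omega) (abs_lt_of (by omega) (by omega)) h2)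
      (not_dvd_small (by omega) (abs_lt_of (by omega) (by omega)))
      (by
        intro h
        have h2 : (2 * n + 2) ∣ x + (-(2 * n + 2) - a) + (2 * n + 2) := h.add (dvd_refl _)
        rw [show x + (-(2 * n + 2) - a) + (2 * n + 2) = x - a by ring] at h2
        exact not_dvd_small (by omega) (abs_lt_of (by omega) (by omega)) h2)
  have hww : ∀ x ∈ Icc 1 n, (w * swp H : Equiv.Perm ℤ) x = w' x := by
    intro x hx
    rw [Equiv.Perm.mul_apply]
    by_cases c1 : x = a
    · rw [c1, t1, e1, show -(2 * n + 2) - a = -(a + (2 * n + 2)) by ring, hw.neg, hw.per]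
      ring
    · rw [t3 x hx c1, e3 x hx c1]
  have p1 := par_one (n := n) (swp H) (fun x => x) a haI
    (fun x hx h1 => (t3 x hx h1).symm)
  have p0 : (-(2 * n + 2) - a) / (2 * n + 2) = -2 := by
    rw [show -(2 * n + 2) - a = -a + (-1) * (2 * n + 2) by ring,
      Int.add_mul_ediv_right _ _ (by omega), div_neg_one_of (-a) (by omega) (by omega)]
    ring
  rw [t1, par_id hn, sub_zero, p0, div_zero_of a (by omega) (by omega)] at p1
  have p2 := par_one (n := n) w w' a haI e3
  have p3 : (-(2 * n + 2) - w a) / (2 * n + 2) = -(w a / (2 * n + 2)) - 2 := by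
    rw [show -(2 * n + 2) - w a = -w a + (-1) * (2 * n + 2) by ring,
      Int.add_mul_ediv_right _ _ (by omega), neg_div hn _ (hw.not_dvd hn a ha han)]
    ring
  rw [e1, hpar, p3] at p2
  have q1 := tvd_one (n := n) (swp H) (fun x => x) a haI
    (fun x hx h1 => (t3 x hx h1).symm)
  rw [t1, tvd_id] at q1
  simp only [sub_self, abs_zero, sub_zero] at q1
  have q2 := absd (-(2 * n + 2) - a - a)
  have r1 : par n (w * swp H : Equiv.Perm ℤ) = par n w' := by
    unfold par
    exact sum_congr rfl fun x hx => by rw [hww x hx]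
  have r2 : tvd n (w * swp H : Equiv.Perm ℤ) = tvd n w' := by
    unfold tvd
    exact sum_congr rfl fun x hx => by rw [hww x hx]
  have r3 : GS n (w * swp H : Equiv.Perm ℤ) = GS n w' := by
    ext j
    rw [mem_GS, mem_GS]
    refine and_congr_right fun hj => OG_congr _ _ j fun i hi => hww i ?_
    rw [mem_Icc] at hi ⊢
    omega
  refine ⟨a, -(2 * n + 2) - a, H, by omega, ?_, ?_, ?_, ?_⟩
  · rw [p1]
    decide
  · rw [r1]
    have : (0 : ZMod 2) - par n w' = 0 := by
      rw [p2]
      push_cast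
      generalize ((w a / (2 * n + 2) : ℤ) : ZMod 2) = x
      revert x
      decide
    simpa using this
  · omega
  · rw [r2, r3]
    omega

end Types

end Pool.Agent.Q285.AC
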